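import Mathlib

/-!
# Folner sets of abelian groups
-/

set_option autoImplicit false

namespace Pool.Agent.H98.Hil

open Finset

/-- combinations with small coefficients -/
noncomputable def boxes {Γ : Type*} [AddCommGroup Γ] [DecidableEq Γ] (S : Finset Γ) (n : ℕ) : Finset Γ :=
  (Fintype.piFinset (fun _ : S => Finset.range (n + 1))).image (fun c => ∑ s : S, c s • (s : Γ))

theorem boxes_card {Γ : Type*} [AddCommGroup Γ] [DecidableEq Γ] (S : Finset Γ) (n : ℕ) :
    (boxes S n).card ≤ (n + 1) ^ S.card := by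
  refine Finset.card_image_le.trans ?_
  rw [Fintype.card_piFinset]
  simp

theorem boxes_mono {Γ : Type*} [AddCommGroup Γ] [DecidableEq Γ] (S : Finset Γ) (n : ℕ) :
    boxes S n ⊆ boxes S (n + 1) := by
  refine Finset.image_subset_image ?_
  refine Fintype.piFinset_subset _ _ (fun s => ?_)
  exact Finset.range_subset_range.2 (by omega)

theorem boxes_add {Γ : Type*} [AddCommGroup Γ] [DecidableEq Γ] (S : Finset Γ) (n : ℕ) {x z : Γ}
    (hx : x ∈ S) (hz : z ∈ boxes S n) : z + x ∈ boxes S (n + 1) := by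
  obtain ⟨c, hc, rfl⟩ := Finset.mem_image.1 hz
  rw [Fintype.mem_piFinset] at hc
  refine Finset.mem_image.2 ⟨fun s => c s + (if s = ⟨x, hx⟩ then 1 else 0), ?_, ?_⟩
  · rw [Fintype.mem_piFinset]
    intro s
    have := Finset.mem_range.1 (hc s)
    rw [Finset.mem_range]
    split_ifs <;> omega
  · simp only [add_smul, Finset.sum_add_distrib, ite_smul, one_smul, zero_smul]
    rw [Finset.sum_ite_eq' Finset.univ (⟨x, hx⟩ : S) (fun s => (s : Γ))]
    simp

theorem boxes_ne {Γ : Type*} [AddCommGroup Γ] [DecidableEq Γ] (S : Finset Γ) (n : ℕ) :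
    (boxes S n).Nonempty := by
  refine ⟨0, Finset.mem_image.2 ⟨fun _ => 0, ?_, by simp⟩⟩
  rw [Fintype.mem_piFinset]
  intro s
  simp

theorem folner {Γ : Type*} [AddCommGroup Γ] [DecidableEq Γ] (S : Finset Γ) {ε : ℝ} (hε : 0 < ε) :
    ∃ C : Finset Γ, C.Nonempty ∧
      ∀ x ∈ S, (1 - ε) * C.card ≤ ((C.filter (fun z => z + x ∈ C)).card : ℝ) := by
  obtain ⟨n, hn⟩ : ∃ n, ((boxes S (n + 1)).card : ℝ) ≤ (1 + ε) * (boxes S n).card := by
    by_contra hcon
    push Not at hcon
    have h1 : ∀ n, (1 + ε) ^ n ≤ ((boxes S n).card : ℝ) := by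
      intro n
      induction n with
      | zero =>
        rw [pow_zero]
        exact_mod_cast (boxes_ne S 0).card_pos
      | succ n ih =>
        calc (1 + ε) ^ (n + 1) = (1 + ε) * (1 + ε) ^ n := by ring
          _ ≤ (1 + ε) * (boxes S n).card := mul_le_mul_of_nonneg_left ih (by positivity)
          _ ≤ _ := (hcon n).le
    have h2 := tendsto_pow_const_div_const_pow_of_one_lt S.card (show 1 < 1 + ε by linarith)
    have h3 := (h2.comp (Filter.tendsto_add_atTop_nat 1)).eventually
      (gt_mem_nhds (show (0 : ℝ) < 1 / (1 + ε) by positivity))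
    obtain ⟨n, hn⟩ := h3.exists
    simp only [Function.comp] at hn
    rw [div_lt_div_iff₀ (by positivity) (by positivity), one_mul] at hn
    have h4 : ((boxes S n).card : ℝ) ≤ ((n + 1 : ℕ) : ℝ) ^ S.card := by exact_mod_cast boxes_card S n
    have h5 : (1 + ε) ^ n * (1 + ε) ≤ ((n + 1 : ℕ) : ℝ) ^ S.card * (1 + ε) :=
      mul_le_mul_of_nonneg_right ((h1 n).trans h4) (by positivity)
    rw [pow_succ] at hn
    linarith
  refine ⟨boxes S n, boxes_ne S n, ?_⟩
  intro x hx
  have h1 : ((boxes S n).filter (fun z => ¬ z + x ∈ boxes S n)).card ≤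
      (boxes S (n + 1) \ boxes S n).card := by
    refine Finset.card_le_card_of_injOn (fun z => z + x) ?_ ?_
    · intro z hz
      have hz' := Finset.mem_filter.1 (Finset.mem_coe.1 hz)
      rw [Finset.mem_coe, Finset.mem_sdiff]
      exact ⟨boxes_add S n hx hz'.1, hz'.2⟩
    · intro z _ w _ h
      exact add_right_cancel h
  have h2 := Finset.card_filter_add_card_filter_not (s := boxes S n) (fun z => z + x ∈ boxes S n)
  have h3 := Finset.card_sdiff_add_card_eq_card (boxes_mono S n)
  have h1' : ((((boxes S n).filter (fun z => ¬ z + x ∈ boxes S n)).card : ℕ) : ℝ) ≤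
      ((boxes S (n + 1) \ boxes S n).card : ℝ) := by exact_mod_cast h1
  have h2' : (((boxes S n).filter (fun z => z + x ∈ boxes S n)).card : ℝ) +
      (((boxes S n).filter (fun z => ¬ z + x ∈ boxes S n)).card : ℝ) = ((boxes S n).card : ℝ) := by
    exact_mod_cast h2
  have h3' : ((boxes S (n + 1) \ boxes S n).card : ℝ) + ((boxes S n).card : ℝ) =
      ((boxes S (n + 1)).card : ℝ) := by exact_mod_cast h3
  linarith

end Pool.Agent.H98.Hil
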