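import Pool.Agent.H98.Hil.Kernel
import Pool.Agent.H98.Hil.Folner
import Pool.Graph.R_seed8.H112R2.Resid

/-!
# A probability measure on characters adapted to a Hilbertian metric
-/

set_option autoImplicit false

namespace Pool.Agent.H98.Hil

open Finset
open scoped RealInnerProductSpace ComplexConjugate Pointwise

theorem ell_zero {Γ E : Type*} [AddCommGroup Γ] [NormedAddCommGroup E] {b : Γ → E} {ℓ : Γ → ℝ}
    (hb : ∀ x y, ‖b x - b y‖ = ℓ (x - y)) : ℓ 0 = 0 := by
  have := hb 0 0
  rw [sub_self, norm_zero, sub_self] at this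
  exact this.symm

theorem ell_nonneg {Γ E : Type*} [AddCommGroup Γ] [NormedAddCommGroup E] {b : Γ → E} {ℓ : Γ → ℝ}
    (hb : ∀ x y, ‖b x - b y‖ = ℓ (x - y)) (x : Γ) : 0 ≤ ℓ x := by
  have := hb x 0
  rw [sub_zero] at this
  rw [← this]
  exact norm_nonneg _

theorem ell_neg {Γ E : Type*} [AddCommGroup Γ] [NormedAddCommGroup E] {b : Γ → E} {ℓ : Γ → ℝ}
    (hb : ∀ x y, ‖b x - b y‖ = ℓ (x - y)) (x : Γ) : ℓ (-x) = ℓ x := by
  have h1 := hb x 0
  have h2 := hb 0 x
  rw [sub_zero] at h1
  rw [zero_sub] at h2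
  rw [← h1, ← h2, norm_sub_rev]

theorem ell_add {Γ E : Type*} [AddCommGroup Γ] [NormedAddCommGroup E] {b : Γ → E} {ℓ : Γ → ℝ}
    (hb : ∀ x y, ‖b x - b y‖ = ℓ (x - y)) (x y : Γ) : ℓ (x + y) ≤ ℓ x + ℓ y := by
  have h1 := hb (x + y) 0
  have h2 := hb (x + y) y
  have h3 := hb y 0
  rw [sub_zero] at h1 h3
  rw [add_sub_cancel_right] at h2
  rw [← h1, ← h2, ← h3]
  exact norm_sub_le_norm_sub_add_norm_sub _ _ _

/-- **The law.** -/
theorem law {Γ E : Type*} [AddCommGroup Γ] [AddGroup.FG Γ] [NormedAddCommGroup E]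
    [InnerProductSpace ℝ E] {b : Γ → E} {ℓ : Γ → ℝ} (hb : ∀ x y, ‖b x - b y‖ = ℓ (x - y))
    (S : Finset Γ) {ε s : ℝ} (hε : 0 < ε) (hs : 0 ≤ s) :
    ∃ (Ω : Type) (_ : Fintype Ω) (γ : Ω → AddChar Γ ℂ) (w : Ω → ℝ), (∀ ω x, ‖γ ω x‖ = 1) ∧
      (∀ ω, 0 ≤ w ω) ∧ ∑ ω, w ω = 1 ∧
      ∀ x ∈ S, ∑ ω, w ω * (γ ω x).re ≤ Real.exp (-(s * ℓ x ^ 2)) ∧
        (1 - ε) * Real.exp (-(s * ℓ x ^ 2)) ≤ ∑ ω, w ω * (γ ω x).re := by
  classical
  obtain ⟨C, hC, hCS⟩ := folner S hε
  set F : Finset Γ := ((C - C) + insert 0 S) with hF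
  have hF0 : (0 : Γ) ∈ F := by
    obtain ⟨c, hc⟩ := hC
    refine Finset.mem_add.2 ⟨c - c, Finset.sub_mem_sub hc hc, 0, Finset.mem_insert_self _ _, ?_⟩
    simp
  obtain ⟨Q, _, _, π, hπ⟩ := H112.exists_finite_quotient Γ F
  let k : Γ → Γ → ℝ := fun y z => Real.exp (-(s * ‖b y - b z‖ ^ 2))
  have hksymm : ∀ y z, k y z = k z y := by
    intro y z
    simp only [k]
    rw [norm_sub_rev]
  let wc : AddChar Q ℂ → ℂ := fun ω => ∑ y ∈ C, ∑ z ∈ C, (k y z : ℂ) * (ω (π z) * conj (ω (π y)))
  have hre : ∀ ω, 0 ≤ (wc ω).re := by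
    intro ω
    have h1 := PSD.gauss C b hs (fun y => (ω (π y)).re)
    have h2 := PSD.gauss C b hs (fun y => (ω (π y)).im)
    have h3 : (wc ω).re = ∑ y ∈ C, ∑ z ∈ C, (ω (π y)).re * (ω (π z)).re * Real.exp (-(s * ‖b y - b z‖ ^ 2))
        + ∑ y ∈ C, ∑ z ∈ C, (ω (π y)).im * (ω (π z)).im * Real.exp (-(s * ‖b y - b z‖ ^ 2)) := by
      simp only [wc, Complex.re_sum]
      rw [← Finset.sum_add_distrib]
      refine Finset.sum_congr rfl (fun y _ => ?_)
      rw [← Finset.sum_add_distrib]
      refine Finset.sum_congr rfl (fun z _ => ?_)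
      rw [Complex.re_ofReal_mul, Complex.mul_re, Complex.conj_re, Complex.conj_im]
      simp only [k]
      ring
    rw [h3]
    exact add_nonneg h1 h2
  have him : ∀ ω, (wc ω).im = 0 := by
    intro ω
    rw [← Complex.conj_eq_iff_im]
    simp only [wc, map_sum, map_mul, Complex.conj_ofReal, Complex.conj_conj]
    rw [Finset.sum_comm]
    refine Finset.sum_congr rfl (fun y _ => Finset.sum_congr rfl (fun z _ => ?_))
    rw [hksymm z y]
    ring
  have hCr : (0 : ℝ) < C.card := by exact_mod_cast hC.card_pos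
  have hQr : (0 : ℝ) < Fintype.card Q := by exact_mod_cast Fintype.card_pos
  -- the main computation
  have hmain : ∀ x ∈ insert 0 S, ∑ ω : AddChar Q ℂ, (wc ω).re * (ω (π x)).re =
      (Fintype.card Q : ℝ) * (((C.filter (fun z => z + x ∈ C)).card : ℝ) * Real.exp (-(s * ℓ x ^ 2))) := by
    intro x hx
    have h1 : ∑ ω : AddChar Q ℂ, wc ω * ω (π x) =
        ((Fintype.card Q : ℝ) * (((C.filter (fun z => z + x ∈ C)).card : ℝ) *
          Real.exp (-(s * ℓ x ^ 2))) : ℝ) := by
      have h2 : ∀ y ∈ C, ∀ z ∈ C, ∑ ω : AddChar Q ℂ, (ω (π z) * conj (ω (π y))) * ω (π x) =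
          if y = z + x then (Fintype.card Q : ℂ) else 0 := by
        intro y hy z hz
        have h3 : ∀ ω : AddChar Q ℂ, (ω (π z) * conj (ω (π y))) * ω (π x) = ω (π (z - y + x)) := by
          intro ω
          rw [← AddChar.map_neg_eq_conj, ← AddChar.map_add_eq_mul, ← AddChar.map_add_eq_mul]
          congr 1
          rw [map_add, map_sub]
          abel
        simp only [h3]
        rw [AddChar.sum_apply_eq_ite]
        have h4 : π (z - y + x) = 0 ↔ y = z + x := by
          have h5 : z - y + x ∈ F := Finset.mem_add.2 ⟨z - y, Finset.sub_mem_sub hz hy, x, hx, rfl⟩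
          constructor
          · intro h6
            have h7 : z - y + x = 0 := hπ (Finset.mem_coe.2 h5) (Finset.mem_coe.2 hF0) (by rw [h6, map_zero])
            have h8 : y = z + x - (z - y + x) := by abel
            rw [h7, sub_zero] at h8
            exact h8
          · rintro rfl
            have : z - (z + x) + x = 0 := by abel
            rw [this, map_zero]
        simp only [h4]
      calc ∑ ω : AddChar Q ℂ, wc ω * ω (π x)
          = ∑ ω : AddChar Q ℂ, ∑ y ∈ C, ∑ z ∈ C, (k y z : ℂ) * ((ω (π z) * conj (ω (π y))) * ω (π x)) := by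
            refine Finset.sum_congr rfl (fun ω _ => ?_)
            simp only [wc, Finset.sum_mul]
            refine Finset.sum_congr rfl (fun y _ => Finset.sum_congr rfl (fun z _ => ?_))
            ring
        _ = ∑ y ∈ C, ∑ z ∈ C, (k y z : ℂ) * ∑ ω : AddChar Q ℂ, ((ω (π z) * conj (ω (π y))) * ω (π x)) := by
            rw [Finset.sum_comm]
            refine Finset.sum_congr rfl (fun y _ => ?_)
            rw [Finset.sum_comm]
            refine Finset.sum_congr rfl (fun z _ => ?_)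
            rw [Finset.mul_sum]
        _ = ∑ y ∈ C, ∑ z ∈ C, (k y z : ℂ) * (if y = z + x then (Fintype.card Q : ℂ) else 0) := by
            refine Finset.sum_congr rfl (fun y hy => Finset.sum_congr rfl (fun z hz => ?_))
            rw [h2 y hy z hz]
        _ = ∑ z ∈ C, ∑ y ∈ C, (if y = z + x then (k y z : ℂ) * (Fintype.card Q : ℂ) else 0) := by
            rw [Finset.sum_comm]
            refine Finset.sum_congr rfl (fun z hz => Finset.sum_congr rfl (fun y hy => ?_))
            rw [mul_ite, mul_zero]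
        _ = ∑ z ∈ C, (if z + x ∈ C then ((Real.exp (-(s * ℓ x ^ 2)) : ℝ) : ℂ) * (Fintype.card Q : ℂ) else 0) := by
            refine Finset.sum_congr rfl (fun z hz => ?_)
            rw [Finset.sum_ite_eq' C (z + x) (fun y => (k y z : ℂ) * (Fintype.card Q : ℂ))]
            have h9 : k (z + x) z = Real.exp (-(s * ℓ x ^ 2)) := by
              simp only [k]
              rw [hb, add_sub_cancel_left]
            rw [h9]
        _ = _ := by
            rw [← Finset.sum_filter, Finset.sum_const, nsmul_eq_mul]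
            push_cast
            ring
    have h2 := congrArg Complex.re h1
    rw [Complex.re_sum, Complex.ofReal_re] at h2
    rw [← h2]
    refine Finset.sum_congr rfl (fun ω _ => ?_)
    rw [Complex.mul_re, him, zero_mul, sub_zero]
  refine ⟨AddChar Q ℂ, inferInstance, fun ω => ω.compAddMonoidHom π,
    fun ω => (wc ω).re / ((Fintype.card Q : ℝ) * C.card), ?_, ?_, ?_, ?_⟩
  · intro ω x
    rw [AddChar.compAddMonoidHom_apply]
    exact AddChar.norm_apply _ _
  · intro ω
    exact div_nonneg (hre ω) (by positivity)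
  · have h1 := hmain 0 (Finset.mem_insert_self _ _)
    simp only [map_zero, AddChar.map_zero_eq_one, Complex.one_re, mul_one, add_zero,
      ell_zero hb] at h1
    rw [← Finset.sum_div, h1, div_eq_one_iff_eq (by positivity)]
    have h2 : C.filter (fun z => z ∈ C) = C := Finset.filter_true_of_mem (fun _ h => h)
    rw [h2]
    norm_num
  · intro x hx
    have h1 := hmain x (Finset.mem_insert_of_mem hx)
    have h2 : ∑ ω : AddChar Q ℂ, (wc ω).re / ((Fintype.card Q : ℝ) * C.card) *
        ((ω.compAddMonoidHom π) x).re =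
        (((C.filter (fun z => z + x ∈ C)).card : ℝ) / C.card) * Real.exp (-(s * ℓ x ^ 2)) := by
      have h3 : ∀ ω : AddChar Q ℂ, (wc ω).re / ((Fintype.card Q : ℝ) * C.card) *
          ((ω.compAddMonoidHom π) x).re =
          ((wc ω).re * (ω (π x)).re) / ((Fintype.card Q : ℝ) * C.card) := by
        intro ω
        rw [AddChar.compAddMonoidHom_apply]
        ring
      simp only [h3]
      rw [← Finset.sum_div, h1]
      field_simp
    rw [h2]
    have hexp : 0 ≤ Real.exp (-(s * ℓ x ^ 2)) := (Real.exp_pos _).le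
    constructor
    · have h3 : ((C.filter (fun z => z + x ∈ C)).card : ℝ) / C.card ≤ 1 := by
        rw [div_le_one hCr]
        exact_mod_cast Finset.card_filter_le _ _
      calc _ ≤ 1 * Real.exp (-(s * ℓ x ^ 2)) := mul_le_mul_of_nonneg_right h3 hexp
        _ = _ := one_mul _
    · refine mul_le_mul_of_nonneg_right ?_ hexp
      rw [le_div_iff₀ hCr]
      exact hCS x hx

end Pool.Agent.H98.Hil
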