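import Mathlib

/-!
# Sampling
-/

set_option autoImplicit false

namespace Pool.Agent.H98.Hil

open Finset

theorem exp_prod {Ω : Type*} [Fintype Ω] (g : Ω → ℝ) (m : ℕ) :
    ∑ f : Fin m → Ω, ∏ i, g (f i) = (∑ ω, g ω) ^ m := by
  have h1 := Finset.prod_univ_sum (fun _ : Fin m => (Finset.univ : Finset Ω)) (fun _ ω => g ω)
  rw [Finset.prod_const, Finset.card_univ, Fintype.card_fin, Fintype.piFinset_univ] at h1
  exact h1.symm

theorem exp_sum {Ω : Type*} [Fintype Ω] (w g : Ω → ℝ) (hw : ∑ ω, w ω = 1) (m : ℕ) :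
    ∑ f : Fin m → Ω, (∏ i, w (f i)) * ∑ i, g (f i) = m * ∑ ω, w ω * g ω := by
  classical
  have h1 : ∀ j : Fin m, ∑ f : Fin m → Ω, (∏ i, w (f i)) * g (f j) = ∑ ω, w ω * g ω := by
    intro j
    have h2 := Finset.prod_univ_sum (fun _ : Fin m => (Finset.univ : Finset Ω))
      (fun i ω => w ω * (if i = j then g ω else 1))
    rw [Fintype.piFinset_univ] at h2
    have h3 : ∀ i : Fin m, ∑ ω, w ω * (if i = j then g ω else 1) =
        if i = j then ∑ ω, w ω * g ω else 1 := by
      intro i
      split_ifs with h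
      · rfl
      · simpa using hw
    simp only [h3] at h2
    rw [Finset.prod_ite_eq' Finset.univ j (fun _ => ∑ ω, w ω * g ω), if_pos (Finset.mem_univ j)] at h2
    rw [h2]
    refine Finset.sum_congr rfl (fun f _ => ?_)
    rw [Finset.prod_mul_distrib, Finset.prod_ite_eq' Finset.univ j (fun i => g (f i)),
      if_pos (Finset.mem_univ j)]
  simp only [Finset.mul_sum]
  rw [Finset.sum_comm]
  simp only [h1]
  rw [Finset.sum_const, Finset.card_univ, Fintype.card_fin, nsmul_eq_mul, Finset.mul_sum]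

theorem exp_bound {z : ℝ} (h0 : 0 ≤ z) (h4 : z ≤ 4) :
    Real.exp (-(z / 4)) ≤ 1 - (z / 4) * (1 - Real.exp (-1)) := by
  have h := convexOn_exp.2 (Set.mem_univ (0 : ℝ)) (Set.mem_univ (-1 : ℝ))
    (show 0 ≤ 1 - z / 4 by linarith) (show 0 ≤ z / 4 by positivity) (by ring)
  simp only [smul_eq_mul, mul_zero, zero_add, Real.exp_zero, mul_one] at h
  have e : z / 4 * -1 = -(z / 4) := by ring
  rw [e] at h
  linarith

theorem sampling {Ω α : Type*} [Fintype Ω] (w : Ω → ℝ) (hw0 : ∀ ω, 0 ≤ w ω) (hw1 : ∑ ω, w ω = 1)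
    (Z : Ω → α → ℝ) (hZ0 : ∀ ω x, 0 ≤ Z ω x) (hZ4 : ∀ ω x, Z ω x ≤ 4) (X Y : Finset α)
    {p β : ℝ} (hβ : 0 < β) (hX : ∀ x ∈ X, ∑ ω, w ω * Z ω x ≤ p)
    (hY : ∀ y ∈ Y, 1.26 ≤ ∑ ω, w ω * Z ω y) {m : ℕ} (hm : 0 < m) :
    ∃ f : Fin m → Ω, (({x ∈ X | β * m < ∑ i, Z (f i) x}.card : ℕ) : ℝ) +
      2 * (({y ∈ Y | ∑ i, Z (f i) y ≤ 0.36 * m}.card : ℕ) : ℝ) ≤
        X.card * (p / β) + 2 * (Y.card * Real.exp (-(m / 10))) := by
  classical
  set G : (Fin m → Ω) → ℝ := fun f => (({x ∈ X | β * m < ∑ i, Z (f i) x}.card : ℕ) : ℝ) +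
      2 * (({y ∈ Y | ∑ i, Z (f i) y ≤ 0.36 * m}.card : ℕ) : ℝ) with hG
  have hm' : (0 : ℝ) < m := by exact_mod_cast hm
  have hβm : 0 < β * m := by positivity
  -- pointwise bound
  have hpt : ∀ f, G f ≤ ∑ x ∈ X, (∑ i, Z (f i) x) / (β * m) +
      2 * ∑ y ∈ Y, Real.exp (0.09 * m) * ∏ i, Real.exp (-(Z (f i) y / 4)) := by
    intro f
    have h1 : (({x ∈ X | β * m < ∑ i, Z (f i) x}.card : ℕ) : ℝ) ≤ ∑ x ∈ X, (∑ i, Z (f i) x) / (β * m) := by
      calc (({x ∈ X | β * m < ∑ i, Z (f i) x}.card : ℕ) : ℝ)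
          = ∑ _x ∈ X.filter (fun x => β * m < ∑ i, Z (f i) x), (1 : ℝ) := by
            rw [Finset.sum_const, nsmul_eq_mul, mul_one]
        _ ≤ ∑ x ∈ X.filter (fun x => β * m < ∑ i, Z (f i) x), (∑ i, Z (f i) x) / (β * m) := by
            refine Finset.sum_le_sum (fun x hx => ?_)
            rw [one_le_div hβm]
            exact (Finset.mem_filter.1 hx).2.le
        _ ≤ _ := Finset.sum_le_sum_of_subset_of_nonneg (Finset.filter_subset _ _)
            (fun x _ _ => div_nonneg (Finset.sum_nonneg (fun i _ => hZ0 _ _)) hβm.le)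
    have h2 : (({y ∈ Y | ∑ i, Z (f i) y ≤ 0.36 * m}.card : ℕ) : ℝ) ≤
        ∑ y ∈ Y, Real.exp (0.09 * m) * ∏ i, Real.exp (-(Z (f i) y / 4)) := by
      calc (({y ∈ Y | ∑ i, Z (f i) y ≤ 0.36 * m}.card : ℕ) : ℝ)
          = ∑ _y ∈ Y.filter (fun y => ∑ i, Z (f i) y ≤ 0.36 * m), (1 : ℝ) := by
            rw [Finset.sum_const, nsmul_eq_mul, mul_one]
        _ ≤ ∑ y ∈ Y.filter (fun y => ∑ i, Z (f i) y ≤ 0.36 * m),
            Real.exp (0.09 * m) * ∏ i, Real.exp (-(Z (f i) y / 4)) := by
            refine Finset.sum_le_sum (fun y hy => ?_)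
            have h3 := (Finset.mem_filter.1 hy).2
            rw [← Real.exp_sum, ← Real.exp_add]
            rw [Real.one_le_exp_iff, Finset.sum_neg_distrib, ← Finset.sum_div]
            linarith
        _ ≤ _ := Finset.sum_le_sum_of_subset_of_nonneg (Finset.filter_subset _ _)
            (fun y _ _ => by positivity)
    simp only [hG]
    linarith
  have hW0 : ∀ f : Fin m → Ω, 0 ≤ ∏ i, w (f i) := fun f => Finset.prod_nonneg (fun i _ => hw0 _)
  have hW1 : ∑ f : Fin m → Ω, ∏ i, w (f i) = 1 := by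
    rw [exp_prod, hw1, one_pow]
  -- the expectation
  have hE : ∑ f : Fin m → Ω, (∏ i, w (f i)) * G f ≤
      X.card * (p / β) + 2 * (Y.card * Real.exp (-(m / 10))) := by
    calc ∑ f : Fin m → Ω, (∏ i, w (f i)) * G f
        ≤ ∑ f : Fin m → Ω, (∏ i, w (f i)) * (∑ x ∈ X, (∑ i, Z (f i) x) / (β * m) +
            2 * ∑ y ∈ Y, Real.exp (0.09 * m) * ∏ i, Real.exp (-(Z (f i) y / 4))) :=
          Finset.sum_le_sum (fun f _ => mul_le_mul_of_nonneg_left (hpt f) (hW0 f))
      _ = ∑ x ∈ X, (∑ f : Fin m → Ω, (∏ i, w (f i)) * ∑ i, Z (f i) x) / (β * m) +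
          2 * ∑ y ∈ Y, Real.exp (0.09 * m) * ∑ f : Fin m → Ω, ∏ i, (w (f i) * Real.exp (-(Z (f i) y / 4))) := by
          simp only [mul_add, Finset.sum_add_distrib]
          congr 1
          · simp only [Finset.mul_sum]
            rw [Finset.sum_comm]
            refine Finset.sum_congr rfl (fun x _ => ?_)
            rw [Finset.sum_div]
            refine Finset.sum_congr rfl (fun f _ => ?_)
            rw [← Finset.mul_sum]
            ring
          · simp only [Finset.mul_sum]
            rw [Finset.sum_comm]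
            refine Finset.sum_congr rfl (fun y _ => ?_)
            refine Finset.sum_congr rfl (fun f _ => ?_)
            rw [Finset.prod_mul_distrib]
            ring
      _ ≤ ∑ _x ∈ X, p / β + 2 * ∑ _y ∈ Y, Real.exp (-(m / 10)) := by
          refine add_le_add (Finset.sum_le_sum (fun x hx => ?_))
            (mul_le_mul_of_nonneg_left (Finset.sum_le_sum (fun y hy => ?_)) (by norm_num))
          · rw [exp_sum w (fun ω => Z ω x) hw1, div_le_div_iff₀ hβm hβ]
            have h1 := hX x hx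
            have h2 : (m * β) * ∑ ω, w ω * Z ω x ≤ (m * β) * p :=
              mul_le_mul_of_nonneg_left h1 (by positivity)
            linarith
          · rw [exp_prod (fun ω => w ω * Real.exp (-(Z ω y / 4)))]
            have h1 : ∑ ω, w ω * Real.exp (-(Z ω y / 4)) ≤ 1 - (1.26 / 4) * (1 - Real.exp (-1)) := by
              have he : Real.exp (-1) ≤ 1 := by
                rw [← Real.exp_zero]
                exact Real.exp_le_exp.2 (by norm_num)
              calc ∑ ω, w ω * Real.exp (-(Z ω y / 4))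
                  ≤ ∑ ω, w ω * (1 - (Z ω y / 4) * (1 - Real.exp (-1))) :=
                    Finset.sum_le_sum (fun ω _ => mul_le_mul_of_nonneg_left
                      (exp_bound (hZ0 ω y) (hZ4 ω y)) (hw0 ω))
                _ = 1 - ((∑ ω, w ω * Z ω y) / 4) * (1 - Real.exp (-1)) := by
                    rw [← hw1, Finset.sum_div, Finset.sum_mul, ← Finset.sum_sub_distrib]
                    refine Finset.sum_congr rfl (fun ω _ => ?_)
                    rw [hw1]
                    ring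
                _ ≤ _ := by
                    have h2 := hY y hy
                    have h3 : 1.26 / 4 * (1 - Real.exp (-1)) ≤
                        (∑ ω, w ω * Z ω y) / 4 * (1 - Real.exp (-1)) :=
                      mul_le_mul_of_nonneg_right (by linarith) (by linarith)
                    linarith
            have he1 : Real.exp (-1) ≤ 0.3679 := by
              rw [Real.exp_neg]
              have := Real.exp_one_gt_d9
              rw [inv_le_comm₀ (Real.exp_pos _) (by norm_num)]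
              norm_num at this ⊢
              linarith
            have h0 : 0 ≤ ∑ ω, w ω * Real.exp (-(Z ω y / 4)) :=
              Finset.sum_nonneg (fun ω _ => mul_nonneg (hw0 ω) (Real.exp_pos _).le)
            have h5 : ∑ ω, w ω * Real.exp (-(Z ω y / 4)) ≤ Real.exp (-0.19) := by
              have h6 := Real.add_one_le_exp (-0.19 : ℝ)
              norm_num at h1 he1 h6 ⊢
              linarith
            calc Real.exp (0.09 * m) * (∑ ω, w ω * Real.exp (-(Z ω y / 4))) ^ m
                ≤ Real.exp (0.09 * m) * Real.exp (-0.19) ^ m :=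
                  mul_le_mul_of_nonneg_left (pow_le_pow_left₀ h0 h5 m) (Real.exp_pos _).le
              _ = Real.exp (-(m / 10)) := by
                  rw [← Real.exp_nat_mul, ← Real.exp_add]
                  congr 1
                  ring
      _ = _ := by
          rw [Finset.sum_const, Finset.sum_const, nsmul_eq_mul, nsmul_eq_mul]
  -- conclusion
  by_contra hcon
  push Not at hcon
  obtain ⟨f, -, hf⟩ := Finset.exists_ne_zero_of_sum_ne_zero (by rw [hW1]; exact one_ne_zero)
  have hfpos : 0 < ∏ i, w (f i) := lt_of_le_of_ne (hW0 f) (Ne.symm hf)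
  set R := (X.card : ℝ) * (p / β) + 2 * (Y.card * Real.exp (-(m / 10))) with hR
  have h1 : ∑ f : Fin m → Ω, (∏ i, w (f i)) * R < ∑ f : Fin m → Ω, (∏ i, w (f i)) * G f := by
    refine Finset.sum_lt_sum (fun g _ => mul_le_mul_of_nonneg_left (hcon g).le (hW0 g))
      ⟨f, Finset.mem_univ _, mul_lt_mul_of_pos_left (hcon f) hfpos⟩
  rw [← Finset.sum_mul, hW1, one_mul] at h1
  linarith

end Pool.Agent.H98.Hil
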