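import Pool.Agent.H98.Hil.Det2
import Pool.Agent.H98.Hil.Law
import Pool.Agent.H98.Hil.Sampling

/-!
# Finitely generated groups
-/

set_option autoImplicit false

namespace Pool.Agent.H98.Hil

open Finset Pool.Agent.Y806.DF
open scoped Pointwise

universe u v

theorem norm_one_sub_sq {z : ℂ} (hz : ‖z‖ = 1) : ‖1 - z‖ ^ 2 = 2 - 2 * z.re := by
  rw [Complex.sq_norm, Complex.normSq_sub, Complex.normSq_one, Complex.normSq_eq_norm_sq, hz]
  simp
  ring

/-- One block of characters. -/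
theorem block {Γ : Type u} {E : Type v} [AddCommGroup Γ] [AddGroup.FG Γ] [NormedAddCommGroup E]
    [InnerProductSpace ℝ E] {b : Γ → E} {ℓ : Γ → ℝ} (hb : ∀ x y, ‖b x - b y‖ = ℓ (x - y))
    (X Y : Finset Γ) (t a : ℕ) (hX : ∀ x ∈ X, ℓ x ≤ 1) (hY : ∀ y ∈ Y, (2 : ℝ) ^ (t + a) < ℓ y)
    {β : ℝ} (hβ : 0 < β) {m : ℕ} (hm : 0 < m) :
    ∃ γ : Fin m → AddChar Γ ℂ, (∀ i x, ‖γ i x‖ = 1) ∧
      (({x ∈ X | β * m < ∑ i, ‖1 - γ i x‖ ^ 2}.card : ℕ) : ℝ) +
      2 * (({y ∈ Y | ∑ i, ‖1 - γ i y‖ ^ 2 ≤ 0.36 * m}.card : ℕ) : ℝ) ≤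
        X.card * (4 * (1 / 4) ^ (t + a) / β) + 2 * (Y.card * Real.exp (-(m / 10))) := by
  classical
  set s : ℝ := (1 / 4) ^ (t + a) with hs
  have hs0 : 0 < s := by positivity
  obtain ⟨Ω, _, γ, w, hγ, hw0, hw1, hlaw⟩ := law hb (X ∪ Y) (ε := s) (s := s) hs0 hs0.le
  have hZ : ∀ ω x, ‖1 - γ ω x‖ ^ 2 = 2 - 2 * (γ ω x).re := fun ω x => norm_one_sub_sq (hγ ω x)
  have hEZ : ∀ x, ∑ ω, w ω * ‖1 - γ ω x‖ ^ 2 = 2 - 2 * ∑ ω, w ω * (γ ω x).re := by
    intro x
    have h1 : ∀ ω, w ω * ‖1 - γ ω x‖ ^ 2 = 2 * w ω - 2 * (w ω * (γ ω x).re) := by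
      intro ω
      rw [hZ]
      ring
    simp only [h1]
    rw [Finset.sum_sub_distrib, ← Finset.mul_sum, ← Finset.mul_sum, hw1, mul_one]
  obtain ⟨f, hf⟩ := sampling w hw0 hw1 (fun ω x => ‖1 - γ ω x‖ ^ 2) (fun ω x => by positivity)
    (fun ω x => by
      have h1 : ‖1 - γ ω x‖ ≤ 2 := by
        refine (norm_sub_le _ _).trans ?_
        rw [hγ, norm_one]
        norm_num
      have h2 : 0 ≤ ‖1 - γ ω x‖ := norm_nonneg _
      nlinarith) X Y (p := 4 * s) (β := β) hβ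
    (fun x hx => by
      rw [hEZ]
      have h1 := (hlaw x (Finset.mem_union_left _ hx)).2
      have hs1 : s ≤ 1 := by rw [hs]; exact pow_le_one₀ (by norm_num) (by norm_num)
      have h2 : 1 - s ≤ Real.exp (-(s * ℓ x ^ 2)) := by
        have h3 := Real.add_one_le_exp (-(s * ℓ x ^ 2))
        have h4 : ℓ x ^ 2 ≤ 1 := by
          have h5 := hX x hx
          have h6 := ell_nonneg hb x
          nlinarith
        have h5 : s * ℓ x ^ 2 ≤ s * 1 := mul_le_mul_of_nonneg_left h4 hs0.le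
        linarith
      have h3 : (1 - s) * (1 - s) ≤ (1 - s) * Real.exp (-(s * ℓ x ^ 2)) :=
        mul_le_mul_of_nonneg_left h2 (by linarith)
      nlinarith [sq_nonneg s])
    (fun y hy => by
      rw [hEZ]
      have h1 := (hlaw y (Finset.mem_union_right _ hy)).1
      have h2 : 1 ≤ s * ℓ y ^ 2 := by
        have h3 := hY y hy
        have h4 : ((2 : ℝ) ^ (t + a)) ^ 2 ≤ ℓ y ^ 2 := pow_le_pow_left₀ (by positivity) h3.le 2
        have h5 : s * ((2 : ℝ) ^ (t + a)) ^ 2 = 1 := by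
          rw [hs, ← pow_mul, mul_comm (t + a) 2, pow_mul, ← mul_pow]
          norm_num
        rw [← h5]
        exact mul_le_mul_of_nonneg_left h4 hs0.le
      have h3 : Real.exp (-(s * ℓ y ^ 2)) ≤ Real.exp (-1) := Real.exp_le_exp.2 (by linarith)
      have he1 : Real.exp (-1) ≤ 0.368 := by
        rw [Real.exp_neg]
        have := Real.exp_one_gt_d9
        rw [inv_le_comm₀ (Real.exp_pos _) (by norm_num)]
        norm_num at this ⊢
        linarith
      norm_num at he1 ⊢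
      linarith) hm
  exact ⟨fun i => γ (f i), fun i x => hγ _ _, hf⟩

/-- the number of the characters in a block -/
noncomputable def mm (κ q : ℝ) (a t : ℕ) : ℕ := ⌈10 * (κ * q ^ (t + a + 3) + t + 5)⌉₊

theorem mm_lower (κ q : ℝ) (a t : ℕ) : κ * q ^ (t + a + 3) + t + 5 ≤ (mm κ q a t : ℝ) / 10 := by
  have := Nat.le_ceil (10 * (κ * q ^ (t + a + 3) + t + 5))
  unfold mm
  linarith

theorem mm_pos {κ q : ℝ} (hκ : 0 ≤ κ) (hq : 2 ≤ q) (a t : ℕ) : 0 < mm κ q a t := by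
  have h1 := mm_lower κ q a t
  have h2 : 0 ≤ κ * q ^ (t + a + 3) := mul_nonneg hκ (pow_nonneg (by linarith) _)
  have h3 : (0 : ℝ) ≤ t := Nat.cast_nonneg _
  have h4 : (0 : ℝ) < mm κ q a t := by linarith
  exact_mod_cast h4

theorem mm_upper {κ q : ℝ} (hκ : 0 ≤ κ) (hq : 2 ≤ q) (a t : ℕ) :
    (mm κ q a t : ℝ) ≤ (10 * q ^ (a + 3) + 51) * (κ + 1) * q ^ t := by
  have hqt : 0 < q ^ t := pow_pos (by linarith) t
  have hqa : 0 < q ^ (a + 3) := pow_pos (by linarith) _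
  have h0 : 0 ≤ 10 * (κ * q ^ (t + a + 3) + t + 5) := by
    have h2 : 0 ≤ κ * q ^ (t + a + 3) := mul_nonneg hκ (pow_nonneg (by linarith) _)
    positivity
  have h1 := Nat.ceil_lt_add_one h0
  have h2 : q ^ (t + a + 3) = q ^ (a + 3) * q ^ t := by rw [← pow_add]; congr 1; ring
  have h3 : (t : ℝ) + 1 ≤ q ^ t := by
    have h4 := one_add_mul_le_pow (show (-2 : ℝ) ≤ 1 by norm_num) t
    have h5 : (1 + 1 : ℝ) ^ t ≤ q ^ t := pow_le_pow_left₀ (by norm_num) (by linarith) t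
    linarith
  have h4 : 0 ≤ κ * q ^ t := by positivity
  have h5 : 0 ≤ q ^ (a + 3) * q ^ t := by positivity
  have h6 : (0 : ℝ) ≤ t := Nat.cast_nonneg _
  unfold mm
  rw [h2] at h1 ⊢
  nlinarith

/-- the series of the entropies converges -/
theorem series_bound {w : ℝ} (hw0 : 0 ≤ w) (hw1 : w < 1) :
    ∃ S : ℝ, 0 ≤ S ∧ ∀ n : ℕ, ∑ t ∈ Finset.range n, ((t : ℝ) + 1) * w ^ t ≤ S := by
  have h1 : Summable (fun t : ℕ => (t : ℝ) ^ 1 * w ^ t) :=
    summable_pow_mul_geometric_of_norm_lt_one 1 (by rw [Real.norm_of_nonneg hw0]; exact hw1)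
  have h2 : Summable (fun t : ℕ => w ^ t) := summable_geometric_of_lt_one hw0 hw1
  have h3 : Summable (fun t : ℕ => ((t : ℝ) + 1) * w ^ t) := by
    refine (h1.add h2).congr (fun t => ?_)
    ring
  refine ⟨∑' t : ℕ, ((t : ℝ) + 1) * w ^ t, tsum_nonneg (fun t => by positivity), fun n => ?_⟩
  exact h3.sum_le_tsum _ (fun t _ => by positivity)

/-- **The case of finitely generated groups.** -/
theorem core {q : ℝ} (hq2 : 2 ≤ q) (hq4 : q < 4) :
    ∃ (a : ℕ) (W w : ℝ), 0 < w ∧ w < 1 ∧ 0 ≤ W ∧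
    ∀ (Γ : Type u) (E : Type v) [AddCommGroup Γ] [AddGroup.FG Γ] [NormedAddCommGroup E]
    [InnerProductSpace ℝ E] (b : Γ → E) (ℓ : Γ → ℝ) (_ : ∀ x y, ‖b x - b y‖ = ℓ (x - y))
    (κ : ℝ) (_ : 0 ≤ κ) (I : ℕ) (_ : W * (κ + 1) * w ^ I ≤ 1)
    (D : ℕ → Finset Γ) (_ : ∀ n ≤ I + a + 3, ∀ x, x ∈ D n ↔ ℓ x ≤ 2 ^ n)
    (_ : ∀ n ≤ I + a + 3, ((D n).card : ℝ) ≤ Real.exp (κ * q ^ n) * (D 0).card),
    ∃ (E' : Finset Γ) (d : ℕ) (X : Finset (Fin d → ℤ)) (ψ : (Fin d → ℤ) →+ Γ) (H : AddSubgroup Γ),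
      E' ⊆ D 0 ∧ ((D 0).card : ℝ) ≤ 2 * E'.card ∧
      X.Nonempty ∧ Finite H ∧ hull X ⊆ X ∧
      ((X + X).card : ℝ) * Nat.card H ≤ (D (a + 1)).card * Real.exp (W * (κ + 1)) ∧
      ∀ e ∈ E', ∃ c ∈ X, ∃ h ∈ H, e = ψ c + h := by
  have hq0 : 0 < q := by linarith
  -- the parameters
  set U : ℝ := (1 / 4 + 1 / q) / 2 with hU
  have hqinv : 1 / 4 < 1 / q := one_div_lt_one_div_of_lt hq0 hq4
  have hqinv2 : 1 / q ≤ 1 / 2 := one_div_le_one_div_of_le (by norm_num) hq2
  have hU1 : 1 / 4 < U := by rw [hU]; linarith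
  have hU2 : U < 1 / q := by rw [hU]; linarith
  have hU0 : 0 < U := by linarith
  set w : ℝ := q * U with hw
  have hw0 : 0 < w := mul_pos hq0 hU0
  have hw1 : w < 1 := by
    rw [lt_div_iff₀ hq0] at hU2
    linarith
  set v : ℝ := 1 / (4 * U) with hv
  have hv0 : 0 < v := by positivity
  have hv1 : v < 1 := by
    rw [hv, div_lt_one (by positivity)]
    linarith
  obtain ⟨a, ha⟩ : ∃ a : ℕ, 2048 * (1 / 4 : ℝ) ^ a ≤ 1 - v := by
    obtain ⟨a, ha⟩ := exists_pow_lt_of_lt_one (show 0 < (1 - v) / 2048 by linarith [sub_pos.2 hv1])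
      (show (1 / 4 : ℝ) < 1 by norm_num)
    refine ⟨a, ?_⟩
    rw [lt_div_iff₀ (by norm_num)] at ha
    linarith
  obtain ⟨S, hS0, hS⟩ := series_bound hw0.le hw1
  set M : ℝ := 10 * q ^ (a + 3) + 51 with hM
  have hM0 : 0 < M := by positivity
  refine ⟨a, M * (S + 4000), w, hw0, hw1, by positivity, ?_⟩
  intro Γ E _ _ _ _ b ℓ hb κ hκ I hI D hD hgrow
  classical
  have hκ1 : 0 < κ + 1 := by linarith
  set β : ℕ → ℝ := fun t => 1 / 128 * U ^ t with hβ
  have hU3 : U ≤ 1 := by linarith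
  have hβ0 : ∀ t, 0 < β t := fun t => by simp only [hβ]; positivity
  have hβ1 : ∀ t, β t ≤ 1 / 128 := by
    intro t
    have : U ^ t ≤ 1 := pow_le_one₀ hU0.le hU3
    simp only [hβ]
    linarith
  -- the entropy
  have hsumb : ∑ t : Fin (I + 1), (mm κ q a t.val : ℝ) * (β t.val * (Real.log (1 / β t.val) + 3)) ≤
      M * (S + 4000) * (κ + 1) := by
    have h1 : ∀ t : ℕ, (mm κ q a t : ℝ) * (β t * (Real.log (1 / β t) + 3)) ≤
        (M * (κ + 1)) * (((t : ℝ) + 1) * w ^ t) := by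
      intro t
      have hqt : 0 < q ^ t := pow_pos hq0 t
      have hUt : 0 < U ^ t := pow_pos hU0 t
      have h2 : Real.log (1 / β t) + 3 ≤ 8 * ((t : ℝ) + 1) := by
        have e1 : 1 / β t = 2 ^ 7 * (1 / U) ^ t := by
          simp only [hβ]
          rw [one_div_pow]
          field_simp
          norm_num
        have h3 : Real.log (1 / U) ≤ 2 * Real.log 2 := by
          have e2 : 2 * Real.log 2 = Real.log 4 := by
            rw [show (4 : ℝ) = 2 ^ 2 by norm_num, Real.log_pow]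
            norm_num
          rw [e2]
          refine Real.log_le_log (by positivity) ?_
          rw [div_le_iff₀ hU0]
          linarith
        rw [e1, Real.log_mul (by norm_num) (by positivity), Real.log_pow, Real.log_pow]
        have h4 := Real.log_two_lt_d9
        have h5 : (0 : ℝ) ≤ t := Nat.cast_nonneg _
        have h6 : (t : ℝ) * Real.log (1 / U) ≤ t * (2 * Real.log 2) :=
          mul_le_mul_of_nonneg_left h3 h5
        push_cast
        nlinarith
      have h3 : 0 ≤ Real.log (1 / β t) + 3 := by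
        have : 0 ≤ Real.log (1 / β t) := by
          refine Real.log_nonneg ?_
          rw [le_div_iff₀ (hβ0 t)]
          have := hβ1 t
          linarith
        linarith
      calc (mm κ q a t : ℝ) * (β t * (Real.log (1 / β t) + 3))
          ≤ (M * (κ + 1) * q ^ t) * (β t * (8 * ((t : ℝ) + 1))) := by
            refine mul_le_mul (mm_upper hκ hq2 a t) (mul_le_mul_of_nonneg_left h2 (hβ0 t).le)
              (mul_nonneg (hβ0 t).le h3) (by positivity)
        _ = 1 / 16 * ((M * (κ + 1)) * (((t : ℝ) + 1) * w ^ t)) := by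
            simp only [hβ, hw, mul_pow]
            ring
        _ ≤ (M * (κ + 1)) * (((t : ℝ) + 1) * w ^ t) := by
            have : 0 ≤ (M * (κ + 1)) * (((t : ℝ) + 1) * w ^ t) := by positivity
            linarith
    rw [Fin.sum_univ_eq_sum_range (fun t => (mm κ q a t : ℝ) * (β t * (Real.log (1 / β t) + 3))) (I + 1)]
    calc _ ≤ ∑ t ∈ Finset.range (I + 1), (M * (κ + 1)) * (((t : ℝ) + 1) * w ^ t) :=
          Finset.sum_le_sum (fun t _ => h1 t)
      _ = (M * (κ + 1)) * ∑ t ∈ Finset.range (I + 1), ((t : ℝ) + 1) * w ^ t := by rw [Finset.mul_sum]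
      _ ≤ (M * (κ + 1)) * S := mul_le_mul_of_nonneg_left (hS _) (by positivity)
      _ ≤ M * (S + 4000) * (κ + 1) := by nlinarith [mul_pos hM0 hκ1]
  -- the last block
  have htop : 4000 * ((mm κ q a I : ℝ) * β I) ≤ 1 := by
    have h1 := mm_upper hκ hq2 a I
    calc 4000 * ((mm κ q a I : ℝ) * β I) ≤ 4000 * ((M * (κ + 1) * q ^ I) * β I) :=
          mul_le_mul_of_nonneg_left (mul_le_mul_of_nonneg_right h1 (hβ0 I).le) (by norm_num)
      _ = 4000 / 128 * (M * (κ + 1) * w ^ I) := by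
          simp only [hβ, hw, mul_pow]
          ring
      _ ≤ M * (S + 4000) * (κ + 1) * w ^ I := by
          have h2 : 0 ≤ M * (κ + 1) * w ^ I := by positivity
          have h3 : 0 ≤ M * S * (κ + 1) * w ^ I := by positivity
          nlinarith
      _ ≤ 1 := hI
  have hD0 : ∀ x, x ∈ D 0 ↔ ℓ x ≤ 1 := by
    intro x
    have := hD 0 (by omega) x
    rwa [pow_zero] at this
  have hD0ne : 0 < (D 0).card := by
    refine Finset.card_pos.2 ⟨0, (hD0 0).2 ?_⟩
    rw [ell_zero hb]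
    norm_num
  have hD0r : (0 : ℝ) < (D 0).card := by exact_mod_cast hD0ne
  -- the choice of the characters
  set Y : Fin (I + 1) → Finset Γ :=
    fun t => {y ∈ D (t.val + a + 3) | (2 : ℝ) ^ (t.val + a) < ℓ y} with hY
  have hblock : ∀ t : Fin (I + 1), ∃ γ : Fin (mm κ q a t.val) → AddChar Γ ℂ, (∀ i x, ‖γ i x‖ = 1) ∧
      (({x ∈ D 0 | β t.val * mm κ q a t.val < ∑ i, ‖1 - γ i x‖ ^ 2}.card : ℕ) : ℝ) +
      2 * (({y ∈ Y t | ∑ i, ‖1 - γ i y‖ ^ 2 ≤ 0.36 * mm κ q a t.val}.card : ℕ) : ℝ) ≤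
        (D 0).card * ((1 - v) / 4 * v ^ t.val + 1 / 16 * (1 / 2) ^ t.val) := by
    intro t
    obtain ⟨γ, hγ, hc⟩ := block hb (D 0) (Y t) t.val a (fun x hx => (hD0 x).1 hx)
      (fun y hy => (Finset.mem_filter.1 hy).2) (hβ0 t.val) (mm_pos hκ hq2 a t.val)
    refine ⟨γ, hγ, hc.trans ?_⟩
    have h1 : ((Y t).card : ℝ) ≤ Real.exp (κ * q ^ (t.val + a + 3)) * (D 0).card := by
      refine le_trans ?_ (hgrow (t.val + a + 3) (by omega))
      exact_mod_cast Finset.card_filter_le _ _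
    have h2 : ((Y t).card : ℝ) * Real.exp (-((mm κ q a t.val : ℝ) / 10)) ≤
        (D 0).card * (1 / 2) ^ (5 + t.val) := by
      calc ((Y t).card : ℝ) * Real.exp (-((mm κ q a t.val : ℝ) / 10))
          ≤ (Real.exp (κ * q ^ (t.val + a + 3)) * (D 0).card) *
            Real.exp (-(κ * q ^ (t.val + a + 3) + t.val + 5)) := by
            refine mul_le_mul h1 (Real.exp_le_exp.2 ?_) (Real.exp_pos _).le (by positivity)
            have := mm_lower κ q a t.val
            linarith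
        _ = (D 0).card * Real.exp (-((5 + t.val : ℕ) : ℝ)) := by
            rw [mul_comm (Real.exp _) ((D 0).card : ℝ), mul_assoc, ← Real.exp_add]
            congr 2
            push_cast
            ring
        _ ≤ (D 0).card * (1 / 2) ^ (5 + t.val) := by
            refine mul_le_mul_of_nonneg_left ?_ (Nat.cast_nonneg _)
            have h3 : Real.exp (-1) ≤ 1 / 2 := by
              rw [Real.exp_neg]
              have := Real.exp_one_gt_d9
              rw [inv_le_comm₀ (Real.exp_pos _) (by norm_num)]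
              norm_num
              linarith
            have h4 : Real.exp (-((5 + t.val : ℕ) : ℝ)) = Real.exp (-1) ^ (5 + t.val) := by
              rw [← Real.exp_nat_mul]
              congr 1
              ring
            rw [h4]
            exact pow_le_pow_left₀ (Real.exp_pos _).le h3 _
    have e5 : ((1 : ℝ) / 2) ^ (5 + t.val) = 1 / 32 * (1 / 2) ^ t.val := by rw [pow_add]; norm_num
    rw [e5] at h2
    have h3 : 4 * (1 / 4 : ℝ) ^ (t.val + a) / β t.val = 512 * (1 / 4) ^ a * v ^ t.val := by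
      simp only [hβ, hv]
      rw [pow_add, one_div_pow (4 * U), mul_pow, one_div_pow]
      field_simp
      norm_num
    rw [h3]
    have h4 : 512 * (1 / 4 : ℝ) ^ a * v ^ t.val ≤ (1 - v) / 4 * v ^ t.val :=
      mul_le_mul_of_nonneg_right (by linarith) (by positivity)
    have h5 : ((D 0).card : ℝ) * (512 * (1 / 4) ^ a * v ^ t.val) ≤
        (D 0).card * ((1 - v) / 4 * v ^ t.val) := mul_le_mul_of_nonneg_left h4 (Nat.cast_nonneg _)
    rw [mul_add]
    linarith
  choose γ hγ hc using hblock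
  set E' : Finset Γ := {x ∈ D 0 | ∀ t, QQ (m := fun t : Fin (I + 1) => mm κ q a t.val) γ t x ≤
    β t.val * mm κ q a t.val} with hE'
  -- the size of `E'`
  have hsum : ∑ t : Fin (I + 1), ((D 0).card : ℝ) * ((1 - v) / 4 * v ^ t.val +
      1 / 16 * (1 / 2) ^ t.val) ≤ 3 / 8 * (D 0).card := by
    rw [Fin.sum_univ_eq_sum_range (fun t => ((D 0).card : ℝ) * ((1 - v) / 4 * v ^ t +
      1 / 16 * (1 / 2) ^ t)) (I + 1), ← Finset.mul_sum, Finset.sum_add_distrib,
      ← Finset.mul_sum, ← Finset.mul_sum]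
    have h1 := sum_geometric_two_le (I + 1)
    have h2 : (1 - v) / 4 * ∑ t ∈ Finset.range (I + 1), v ^ t ≤ 1 / 4 := by
      have h3 : (1 - v) * ∑ t ∈ Finset.range (I + 1), v ^ t = 1 - v ^ (I + 1) := by
        rw [mul_comm]
        exact geom_sum_mul_neg v (I + 1)
      have h4 : 0 < v ^ (I + 1) := by positivity
      linarith
    have h3 : (1 - v) / 4 * ∑ t ∈ Finset.range (I + 1), v ^ t +
        1 / 16 * ∑ t ∈ Finset.range (I + 1), (1 / 2 : ℝ) ^ t ≤ 3 / 8 := by linarith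
    calc _ ≤ ((D 0).card : ℝ) * (3 / 8) := mul_le_mul_of_nonneg_left h3 (Nat.cast_nonneg _)
      _ = _ := by ring
  have hcompl : (((D 0) \ E').card : ℝ) ≤ 3 / 8 * (D 0).card := by
    have h1 : (D 0) \ E' ⊆ Finset.univ.biUnion (fun t : Fin (I + 1) =>
        {x ∈ D 0 | β t.val * (mm κ q a t.val : ℝ) < ∑ i, ‖1 - γ t i x‖ ^ 2}) := by
      intro x hx
      rw [Finset.mem_sdiff] at hx
      have h2 : ¬ ∀ t, QQ (m := fun t : Fin (I + 1) => mm κ q a t.val) γ t x ≤
          β t.val * mm κ q a t.val := by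
        intro h3
        exact hx.2 (Finset.mem_filter.2 ⟨hx.1, h3⟩)
      push Not at h2
      obtain ⟨t, ht⟩ := h2
      exact Finset.mem_biUnion.2 ⟨t, Finset.mem_univ _, Finset.mem_filter.2 ⟨hx.1, ht⟩⟩
    calc (((D 0) \ E').card : ℝ) ≤ ((∑ t : Fin (I + 1),
          ({x ∈ D 0 | β t.val * (mm κ q a t.val : ℝ) < ∑ i, ‖1 - γ t i x‖ ^ 2}).card : ℕ) : ℝ) := by
          exact_mod_cast (Finset.card_le_card h1).trans Finset.card_biUnion_le
      _ ≤ ∑ t : Fin (I + 1), ((D 0).card : ℝ) * ((1 - v) / 4 * v ^ t.val +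
          1 / 16 * (1 / 2) ^ t.val) := by
          rw [Nat.cast_sum]
          refine Finset.sum_le_sum (fun t _ => ?_)
          refine le_trans ?_ (hc t)
          have : (0 : ℝ) ≤ (({y ∈ Y t | ∑ i, ‖1 - γ t i y‖ ^ 2 ≤ 0.36 * mm κ q a t.val}.card : ℕ) : ℝ) :=
            Nat.cast_nonneg _
          linarith
      _ ≤ _ := hsum
  have hE'card : 5 / 8 * ((D 0).card : ℝ) ≤ E'.card := by
    have h1 : ((D 0) \ E').card + E'.card = (D 0).card :=
      Finset.card_sdiff_add_card_eq_card (Finset.filter_subset _ _)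
    have h2 : (((D 0) \ E').card : ℝ) + E'.card = (D 0).card := by exact_mod_cast h1
    linarith
  -- the bad elements
  have hbad : ∀ t, ({y ∈ Y t | QQ (m := fun t : Fin (I + 1) => mm κ q a t.val) γ t y ≤
      0.36 * mm κ q a t.val}.card) < E'.card := by
    intro t
    have h1 := hc t
    have h2 : ((D 0).card : ℝ) * ((1 - v) / 4 * v ^ t.val + 1 / 16 * (1 / 2) ^ t.val) ≤
        (D 0).card * (3 / 8) := by
      refine mul_le_mul_of_nonneg_left ?_ (Nat.cast_nonneg _)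
      have h3 : v ^ t.val ≤ 1 := pow_le_one₀ hv0.le hv1.le
      have h4 : (1 / 2 : ℝ) ^ t.val ≤ 1 := pow_le_one₀ (by norm_num) (by norm_num)
      have h5 : 0 < 1 - v := by linarith
      have h6 : (1 - v) / 4 * v ^ t.val ≤ (1 - v) / 4 * 1 :=
        mul_le_mul_of_nonneg_left h3 (by linarith)
      linarith
    have h3 : (0 : ℝ) ≤ (({x ∈ D 0 | β t.val * mm κ q a t.val <
        ∑ i, ‖1 - γ t i x‖ ^ 2}.card : ℕ) : ℝ) := Nat.cast_nonneg _
    have h4 : ((({y ∈ Y t | QQ (m := fun t : Fin (I + 1) => mm κ q a t.val) γ t y ≤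
        0.36 * mm κ q a t.val}.card) : ℕ) : ℝ) < E'.card := by
      unfold QQ
      linarith
    exact_mod_cast h4
  obtain ⟨d, X, ψ, H, hX, hH, hhull, hcard, hcov⟩ := det (ell_zero hb) (ell_neg hb) (ell_add hb) a I
    (m := fun t : Fin (I + 1) => mm κ q a t.val) (fun t => mm_pos hκ hq2 a t.val) hγ (D (a + 1))
    (fun x hx => (hD (a + 1) (by omega) x).2 hx) Y
    (fun t x h1 h2 => Finset.mem_filter.2 ⟨(hD (t.val + a + 3) (by omega) x).2 h2, h1⟩) E'
    (fun e he => (hD0 e).1 (Finset.mem_filter.1 he).1) (β := fun t => β t.val)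
    (fun t => hβ0 t.val) (fun t => hβ1 t.val)
    (fun t e he => (Finset.mem_filter.1 he).2 t) hbad (by
      simp only [Fin.val_last]
      exact htop)
  refine ⟨E', d, X, ψ, H, Finset.filter_subset _ _, by linarith, hX, hH, hhull, ?_, hcov⟩
  refine hcard.trans (mul_le_mul_of_nonneg_left (Real.exp_le_exp.2 ?_) (Nat.cast_nonneg _))
  exact hsumb

end Pool.Agent.H98.Hil
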