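import Mathlib

/-!
# Integer points in balls of small radius
-/

set_option autoImplicit false

namespace Pool.Agent.H98.Hil

open Finset

/-- the generating function of the absolute value on the integers -/
theorem geom_int {y : ℝ} (hy0 : 0 < y) (hy1 : y < 1) (n : ℕ) :
    ∑ j ∈ Finset.Icc (-(n : ℤ)) n, y ^ j.natAbs ≤ (1 + y - 2 * y ^ (n + 1)) / (1 - y) := by
  have h1y : 0 < 1 - y := by linarith
  induction n with
  | zero =>
    have : Finset.Icc (-((0 : ℕ) : ℤ)) ((0 : ℕ) : ℤ) = {0} := by simp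
    rw [this, Finset.sum_singleton, le_div_iff₀ h1y]
    simp
    linarith
  | succ n ih =>
    have h2 : Finset.Icc (-((n + 1 : ℕ) : ℤ)) ((n + 1 : ℕ) : ℤ) ⊆
        insert (-((n + 1 : ℕ) : ℤ)) (insert ((n + 1 : ℕ) : ℤ) (Finset.Icc (-(n : ℤ)) n)) := by
      intro j hj
      rw [Finset.mem_Icc] at hj
      rw [Finset.mem_insert, Finset.mem_insert, Finset.mem_Icc]
      push_cast at hj ⊢
      omega
    calc ∑ j ∈ Finset.Icc (-((n + 1 : ℕ) : ℤ)) ((n + 1 : ℕ) : ℤ), y ^ j.natAbs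
        ≤ ∑ j ∈ insert (-((n + 1 : ℕ) : ℤ)) (insert ((n + 1 : ℕ) : ℤ) (Finset.Icc (-(n : ℤ)) n)),
            y ^ j.natAbs := Finset.sum_le_sum_of_subset_of_nonneg h2 (fun _ _ _ => by positivity)
      _ = y ^ (n + 1) + (y ^ (n + 1) + ∑ j ∈ Finset.Icc (-(n : ℤ)) n, y ^ j.natAbs) := by
          rw [Finset.sum_insert, Finset.sum_insert]
          · simp only [Int.natAbs_neg, Int.natAbs_natCast]
          · rw [Finset.mem_Icc]; push_cast; omega
          · rw [Finset.mem_insert, Finset.mem_Icc]; push_cast; omega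
      _ ≤ y ^ (n + 1) + (y ^ (n + 1) + (1 + y - 2 * y ^ (n + 1)) / (1 - y)) := by linarith
      _ = (1 + y - 2 * y ^ (n + 1 + 1)) / (1 - y) := by
          field_simp
          ring

theorem geom_int' {y : ℝ} (hy0 : 0 < y) (hy1 : y ≤ 1 / 3) (n : ℕ) :
    ∑ j ∈ Finset.Icc (-(n : ℤ)) n, y ^ j.natAbs ≤ Real.exp (3 * y) := by
  have h1y : 0 < 1 - y := by linarith
  refine (geom_int hy0 (by linarith) n).trans ?_
  have h1 : (1 + y - 2 * y ^ (n + 1)) / (1 - y) ≤ 1 + 3 * y := by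
    rw [div_le_iff₀ h1y]
    have : 0 < y ^ (n + 1) := by positivity
    nlinarith
  refine h1.trans ?_
  have := Real.add_one_le_exp (3 * y)
  linarith

/-- the points -/
def pts (m : ℕ) (a : ℝ) : Set (Fin m → ℤ) := {z | ∑ i, (z i : ℝ) ^ 2 ≤ a * m}

theorem natAbs_le_sq (z : ℤ) : (z.natAbs : ℝ) ≤ (z : ℝ) ^ 2 := by
  have h1 : z.natAbs ≤ z.natAbs ^ 2 := by
    rcases Nat.eq_zero_or_pos z.natAbs with h | h
    · rw [h]; norm_num
    · exact Nat.le_self_pow (by norm_num) _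
  have h3 : (z.natAbs : ℝ) ^ 2 = (z : ℝ) ^ 2 := by
    rw [Nat.cast_natAbs, Int.cast_abs, sq_abs]
  rw [← h3]
  exact_mod_cast h1

theorem pts_count {m : ℕ} {a : ℝ} (ha0 : 0 < a) (ha1 : a ≤ 1 / 3) :
    (pts m a).Finite ∧ ((pts m a).ncard : ℝ) ≤ Real.exp (m * (a * (Real.log (1 / a) + 3))) := by
  classical
  set box : Finset (Fin m → ℤ) := Fintype.piFinset (fun _ => Finset.Icc (-(m : ℤ)) m) with hbox
  have hsub : pts m a ⊆ (box : Set (Fin m → ℤ)) := by
    intro z hz
    rw [Finset.mem_coe, hbox, Fintype.mem_piFinset]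
    intro i
    have h1 : (z i : ℝ) ^ 2 ≤ a * m :=
      (Finset.single_le_sum (f := fun i => (z i : ℝ) ^ 2) (fun _ _ => sq_nonneg _)
        (Finset.mem_univ i)).trans hz
    have h2 := natAbs_le_sq (z i)
    have h3 : ((z i).natAbs : ℝ) ≤ m := by
      have : a * m ≤ 1 * m := mul_le_mul_of_nonneg_right (by linarith) (Nat.cast_nonneg _)
      linarith
    have h4 : (z i).natAbs ≤ m := by exact_mod_cast h3
    rw [Finset.mem_Icc]
    omega
  have hfin : (pts m a).Finite := (Finset.finite_toSet box).subset hsub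
  refine ⟨hfin, ?_⟩
  rw [Set.ncard_eq_toFinset_card _ hfin]
  set S := hfin.toFinset with hS
  have hlog : Real.exp (Real.log a) = a := Real.exp_log ha0
  have h1 : ∀ z ∈ S, a ^ (a * m) ≤ ∏ i, a ^ (z i).natAbs := by
    intro z hz
    have hz' : z ∈ pts m a := (Set.Finite.mem_toFinset _).1 hz
    rw [Finset.prod_pow_eq_pow_sum, ← Real.rpow_natCast]
    refine Real.rpow_le_rpow_of_exponent_ge ha0 (by linarith) ?_
    rw [Nat.cast_sum]
    exact le_trans (Finset.sum_le_sum (fun i _ => natAbs_le_sq (z i))) hz'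
  have h2 : (S.card : ℝ) * a ^ (a * m) ≤ (Real.exp (3 * a)) ^ m := by
    calc (S.card : ℝ) * a ^ (a * m) = ∑ _z ∈ S, a ^ (a * m) := by
          rw [Finset.sum_const, nsmul_eq_mul]
      _ ≤ ∑ z ∈ S, ∏ i, a ^ (z i).natAbs := Finset.sum_le_sum h1
      _ ≤ ∑ z ∈ box, ∏ i, a ^ (z i).natAbs := by
          refine Finset.sum_le_sum_of_subset_of_nonneg ?_ (fun _ _ _ => by positivity)
          intro z hz
          exact hsub ((Set.Finite.mem_toFinset _).1 hz)
      _ = ∏ _i : Fin m, ∑ j ∈ Finset.Icc (-(m : ℤ)) m, a ^ j.natAbs := by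
          rw [hbox, Finset.prod_univ_sum]
      _ = (∑ j ∈ Finset.Icc (-(m : ℤ)) m, a ^ j.natAbs) ^ m := by
          rw [Finset.prod_const, Finset.card_univ, Fintype.card_fin]
      _ ≤ (Real.exp (3 * a)) ^ m := by
          refine pow_le_pow_left₀ (Finset.sum_nonneg (fun _ _ => by positivity)) ?_ m
          exact geom_int' ha0 ha1 m
  have h3 : a ^ (a * m) = Real.exp (-(m * (a * Real.log (1 / a)))) := by
    rw [Real.rpow_def_of_pos ha0]
    congr 1
    rw [one_div, Real.log_inv]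
    ring
  rw [h3, ← Real.exp_nat_mul] at h2
  have h4 : (S.card : ℝ) ≤ Real.exp (m * (3 * a)) * Real.exp (m * (a * Real.log (1 / a))) := by
    have h5 := mul_le_mul_of_nonneg_right h2 (Real.exp_pos (m * (a * Real.log (1 / a)))).le
    rw [mul_assoc, ← Real.exp_add] at h5
    simpa using h5
  rw [← Real.exp_add] at h4
  refine h4.trans (le_of_eq ?_)
  congr 1
  ring

end Pool.Agent.H98.Hil
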