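import Mathlib

/-!
# Locality in Euclidean spaces: small elements of a subgroup generated by small elements
-/

set_option autoImplicit false

namespace Pool.Agent.H98.Hil

open Finset

section
variable {M V : Type*} [AddCommGroup M] [NormedAddCommGroup V] [InnerProductSpace ℝ V]

theorem sign_choice (σ v : V) {x y : ℝ} (hx0 : 0 ≤ x) (hx1 : x ≤ 1) (hy0 : y ≤ 0) (hy1 : -1 ≤ y) :
    ‖σ + x • v‖ ^ 2 ≤ ‖σ‖ ^ 2 + ‖v‖ ^ 2 ∨ ‖σ + y • v‖ ^ 2 ≤ ‖σ‖ ^ 2 + ‖v‖ ^ 2 := by
  have hexp : ∀ z : ℝ, ‖σ + z • v‖ ^ 2 = ‖σ‖ ^ 2 + 2 * (z * inner ℝ σ v) + z ^ 2 * ‖v‖ ^ 2 := by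
    intro z
    rw [norm_add_sq_real, inner_smul_right, norm_smul, mul_pow, Real.norm_eq_abs, sq_abs]
  have hv : 0 ≤ ‖v‖ ^ 2 := by positivity
  rcases le_total (inner ℝ σ v : ℝ) 0 with h | h
  · left
    rw [hexp]
    have h1 : x * inner ℝ σ v ≤ 0 := mul_nonpos_of_nonneg_of_nonpos hx0 h
    have h2 : x ^ 2 * ‖v‖ ^ 2 ≤ 1 * ‖v‖ ^ 2 := mul_le_mul_of_nonneg_right (by nlinarith) hv
    linarith
  · right
    rw [hexp]
    have h1 : y * inner ℝ σ v ≤ 0 := mul_nonpos_of_nonpos_of_nonneg hy0 h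
    have h2 : y ^ 2 * ‖v‖ ^ 2 ≤ 1 * ‖v‖ ^ 2 := mul_le_mul_of_nonneg_right (by nlinarith) hv
    linarith

theorem le_of_sq {a b : ℝ} (hb : 0 ≤ b) (h : a ^ 2 ≤ b ^ 2) : a ≤ b := by
  by_contra hcon
  push Not at hcon
  nlinarith

/-- greedy signs -/
theorem signs_mem (P : M →+ V) (S : Set M) (h0 : (0 : M) ∈ S) (hneg : ∀ g ∈ S, -g ∈ S) {R ρ W : ℝ}
    (hadd : ∀ g ∈ S, ∀ h ∈ S, ‖P (g + h)‖ ≤ R → g + h ∈ S) (hW : 0 ≤ W) (hWR : W ≤ R)
    {ι : Type*} [DecidableEq ι] (v : ι → M) (hv : ∀ i, v i ∈ S) (hvρ : ∀ i, ‖P (v i)‖ ≤ ρ)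
    (T : Finset ι) (hT : (T.card : ℝ) * ρ ^ 2 ≤ W ^ 2) :
    ∃ ε : ι → ℤ, (∀ i, ε i = 1 ∨ ε i = -1) ∧ ‖P (∑ i ∈ T, ε i • v i)‖ ^ 2 ≤ T.card * ρ ^ 2 ∧
      ∑ i ∈ T, ε i • v i ∈ S := by
  induction T using Finset.induction_on with
  | empty => exact ⟨fun _ => 1, fun _ => Or.inl rfl, by simp, by simpa using h0⟩
  | insert a T ha ih =>
    rw [Finset.card_insert_of_notMem ha] at hT
    push_cast at hT
    have hρ2 : 0 ≤ ρ ^ 2 := sq_nonneg ρ
    obtain ⟨ε, hε, hεn, hεS⟩ := ih (by linarith)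
    have hva : ‖P (v a)‖ ^ 2 ≤ ρ ^ 2 := pow_le_pow_left₀ (norm_nonneg _) (hvρ a) 2
    have hex : ∃ s : ℤ, (s = 1 ∨ s = -1) ∧
        ‖P (∑ i ∈ T, ε i • v i) + (s : ℝ) • P (v a)‖ ^ 2 ≤ T.card * ρ ^ 2 + ρ ^ 2 := by
      rcases sign_choice (P (∑ i ∈ T, ε i • v i)) (P (v a)) (x := 1) (y := -1) (by norm_num)
        (by norm_num) (by norm_num) (by norm_num) with h | h
      · exact ⟨1, Or.inl rfl, by rw [Int.cast_one]; linarith⟩
      · exact ⟨-1, Or.inr rfl, by rw [Int.cast_neg, Int.cast_one]; linarith⟩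
    obtain ⟨s, hs, hsn⟩ := hex
    refine ⟨Function.update ε a s, ?_, ?_, ?_⟩
    · intro i
      rcases eq_or_ne i a with rfl | hi
      · rw [Function.update_self]; exact hs
      · rw [Function.update_of_ne hi]; exact hε i
    all_goals
      have hsum : ∑ i ∈ insert a T, Function.update ε a s i • v i =
          ∑ i ∈ T, ε i • v i + s • v a := by
        rw [Finset.sum_insert ha, Function.update_self, add_comm]
        congr 1
        refine Finset.sum_congr rfl (fun i hi => ?_)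
        rw [Function.update_of_ne (ne_of_mem_of_not_mem hi ha)]
      have hP : P (∑ i ∈ T, ε i • v i + s • v a) =
          P (∑ i ∈ T, ε i • v i) + (s : ℝ) • P (v a) := by
        rw [map_add, map_zsmul, Int.cast_smul_eq_zsmul]
      rw [hsum]
    · rw [hP, Finset.card_insert_of_notMem ha]
      push_cast
      linarith
    · have hsv : s • v a ∈ S := by
        rcases hs with rfl | rfl
        · rw [one_zsmul]; exact hv a
        · rw [neg_one_zsmul]; exact hneg _ (hv a)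
      refine hadd _ hεS _ hsv ?_
      rw [hP]
      refine le_trans (le_of_sq hW ?_) hWR
      linarith

/-- sums of few small elements -/
theorem sum_mem_of_small (P : M →+ V) (S : Set M) (h0 : (0 : M) ∈ S) (hneg : ∀ g ∈ S, -g ∈ S)
    {R ρ W : ℝ} (hadd : ∀ g ∈ S, ∀ h ∈ S, ‖P (g + h)‖ ≤ R → g + h ∈ S) (hW : 0 ≤ W)
    (hWR : 10 * W ≤ R) {ι : Type*} [DecidableEq ι] (v : ι → M) (hv : ∀ i, v i ∈ S)
    (hvρ : ∀ i, ‖P (v i)‖ ≤ ρ) :
    ∀ (N : ℕ) (T : Finset ι), T.card ≤ N → (T.card : ℝ) * ρ ^ 2 ≤ W ^ 2 →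
      ‖P (∑ i ∈ T, v i)‖ ≤ R / 2 → ∑ i ∈ T, v i ∈ S := by
  intro N
  induction N with
  | zero =>
    intro T hT _ _
    have : T = ∅ := Finset.card_eq_zero.1 (by omega)
    rw [this]
    simpa using h0
  | succ N ih =>
    intro T hT hTρ hTR
    have hρ2 : 0 ≤ ρ ^ 2 := sq_nonneg ρ
    obtain ⟨ε, hε, hεn, hεS⟩ := signs_mem P S h0 hneg hadd hW (by linarith) v hv hvρ T hTρ
    set T1 := T.filter (fun i => ε i = 1) with hT1
    set T2 := T.filter (fun i => ¬ ε i = 1) with hT2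
    have hs : ∑ i ∈ T1, v i + ∑ i ∈ T2, v i = ∑ i ∈ T, v i :=
      Finset.sum_filter_add_sum_filter_not T _ _
    have hs2 : ∑ i ∈ T, ε i • v i = ∑ i ∈ T1, v i - ∑ i ∈ T2, v i := by
      rw [← Finset.sum_filter_add_sum_filter_not T (fun i => ε i = 1), sub_eq_add_neg,
        ← Finset.sum_neg_distrib]
      congr 1
      · refine Finset.sum_congr rfl (fun i hi => ?_)
        rw [(Finset.mem_filter.1 hi).2, one_zsmul]
      · refine Finset.sum_congr rfl (fun i hi => ?_)
        have h1 : ε i = -1 := (hε i).resolve_left (Finset.mem_filter.1 hi).2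
        rw [h1, neg_one_zsmul]
    have hσ : ‖P (∑ i ∈ T, ε i • v i)‖ ≤ W := le_of_sq hW (hεn.trans hTρ)
    have hcard : T1.card + T2.card = T.card := Finset.card_filter_add_card_filter_not _
    rcases Nat.eq_zero_or_pos T2.card with h2 | h2
    · have h3 : T2 = ∅ := Finset.card_eq_zero.1 h2
      rw [h3, Finset.sum_empty, sub_zero] at hs2
      rw [h3, Finset.sum_empty, add_zero] at hs
      rw [← hs, ← hs2]
      exact hεS
    · rcases Nat.eq_zero_or_pos T1.card with h1 | h1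
      · have h3 : T1 = ∅ := Finset.card_eq_zero.1 h1
        rw [h3, Finset.sum_empty, zero_sub] at hs2
        rw [h3, Finset.sum_empty, zero_add] at hs
        rw [← hs]
        have h4 := hneg _ hεS
        rw [hs2, neg_neg] at h4
        exact h4
      · have hn1 : ‖P (∑ i ∈ T1, v i)‖ ≤ R / 2 := by
          have h3 : (2 : ℝ) • P (∑ i ∈ T1, v i) = P (∑ i ∈ T, v i) + P (∑ i ∈ T, ε i • v i) := by
            rw [hs2, ← hs, map_sub, map_add, two_smul]
            abel
          have h4 : 2 * ‖P (∑ i ∈ T1, v i)‖ ≤ R / 2 + W := by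
            have h5 : ‖(2 : ℝ) • P (∑ i ∈ T1, v i)‖ = 2 * ‖P (∑ i ∈ T1, v i)‖ := by
              rw [norm_smul]
              norm_num
            rw [← h5, h3]
            exact (norm_add_le _ _).trans (add_le_add hTR hσ)
          linarith
        have hn2 : ‖P (∑ i ∈ T2, v i)‖ ≤ R / 2 := by
          have h3 : (2 : ℝ) • P (∑ i ∈ T2, v i) = P (∑ i ∈ T, v i) - P (∑ i ∈ T, ε i • v i) := by
            rw [hs2, ← hs, map_sub, map_add, two_smul]
            abel
          have h4 : 2 * ‖P (∑ i ∈ T2, v i)‖ ≤ R / 2 + W := by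
            have h5 : ‖(2 : ℝ) • P (∑ i ∈ T2, v i)‖ = 2 * ‖P (∑ i ∈ T2, v i)‖ := by
              rw [norm_smul]
              norm_num
            rw [← h5, h3]
            exact (norm_sub_le _ _).trans (add_le_add hTR hσ)
          linarith
        have hc1 : (T1.card : ℝ) ≤ T.card := by exact_mod_cast (by omega : T1.card ≤ T.card)
        have hc2 : (T2.card : ℝ) ≤ T.card := by exact_mod_cast (by omega : T2.card ≤ T.card)
        have hm1 := ih T1 (by omega) ((mul_le_mul_of_nonneg_right hc1 hρ2).trans hTρ) hn1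
        have hm2 := ih T2 (by omega) ((mul_le_mul_of_nonneg_right hc2 hρ2).trans hTρ) hn2
        rw [← hs]
        refine hadd _ hm1 _ hm2 ?_
        rw [hs]
        have := norm_nonneg (P (∑ i ∈ T, v i))
        linarith

/-- Small integer combinations of small elements of `S` are in `S`. -/
theorem comb_memE (P : M →+ V) (S : Set M) (h0 : (0 : M) ∈ S) (hneg : ∀ g ∈ S, -g ∈ S)
    {R ρ W : ℝ} (hadd : ∀ g ∈ S, ∀ h ∈ S, ‖P (g + h)‖ ≤ R → g + h ∈ S) (hρ : 0 ≤ ρ) (hW : 0 ≤ W)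
    (hWR : 10 * W ≤ R) {ι : Type*} [Fintype ι] [DecidableEq ι] (v : ι → M) (hv : ∀ i, v i ∈ S)
    (hvρ : ∀ i, ‖P (v i)‖ ≤ ρ) (hc : (Fintype.card ι : ℝ) * ρ ^ 2 ≤ W ^ 2) :
    ∀ (N : ℕ) (n : ι → ℤ), (∀ i, |n i| ≤ N) → ‖P (∑ i, n i • v i)‖ ≤ R / 2 →
      ∑ i, n i • v i ∈ S := by
  have hsmall : ∀ (s : ℤ) (i : ι), |s| ≤ 1 → s • v i ∈ S ∧ ‖P (s • v i)‖ ≤ ρ := by
    intro s i hs
    have h1 : s = -1 ∨ s = 0 ∨ s = 1 := by
      have := abs_le.1 hs
      omega
    rcases h1 with rfl | rfl | rfl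
    · rw [neg_one_zsmul, map_neg, norm_neg]
      exact ⟨hneg _ (hv i), hvρ i⟩
    · rw [zero_zsmul, map_zero, norm_zero]
      exact ⟨h0, hρ⟩
    · rw [one_zsmul]
      exact ⟨hv i, hvρ i⟩
  intro N
  induction N using Nat.strong_induction_on with
  | _ N ih =>
    intro n hn hnR
    rcases Nat.lt_or_ge N 2 with hN | hN
    · have hn1 : ∀ i, |n i| ≤ 1 := by
        intro i
        have h1 := hn i
        have h2 : (N : ℤ) ≤ 1 := by exact_mod_cast (by omega : N ≤ 1)
        linarith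
      refine sum_mem_of_small P S h0 hneg hadd hW hWR (fun i => n i • v i)
        (fun i => (hsmall (n i) i (hn1 i)).1) (fun i => (hsmall (n i) i (hn1 i)).2)
        (Finset.univ : Finset ι).card Finset.univ le_rfl ?_ hnR
      rw [Finset.card_univ]
      exact hc
    · have hpar : ∀ i, |n i % 2| ≤ 1 := by
        intro i
        rw [abs_le]
        constructor <;> omega
      obtain ⟨ε, hε, hεn, hεS⟩ := signs_mem P S h0 hneg hadd hW (by linarith)
        (fun i => (n i % 2) • v i) (fun i => (hsmall _ i (hpar i)).1)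
        (fun i => (hsmall _ i (hpar i)).2) Finset.univ (by rw [Finset.card_univ]; exact hc)
      rw [Finset.card_univ] at hεn
      have hσ : ‖P (∑ i, ε i • ((n i % 2) • v i))‖ ≤ W := le_of_sq hW (hεn.trans hc)
      have hdec : ∀ i, ∃ a : ℤ, n i = 2 * a + ε i * (n i % 2) ∧ |a| ≤ ((N - 1 : ℕ) : ℤ) := by
        intro i
        have h1 := abs_le.1 (hn i)
        have h2 : ((N - 1 : ℕ) : ℤ) = (N : ℤ) - 1 := by
          rw [Nat.cast_sub (by omega)]
          norm_num
        have h3 : (2 : ℤ) ≤ N := by exact_mod_cast hN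
        rcases Int.emod_two_eq_zero_or_one (n i) with h | h
        · refine ⟨n i / 2, ?_, ?_⟩
          · rw [h, mul_zero, add_zero]
            omega
          · rw [abs_le, h2]
            constructor <;> omega
        · rcases hε i with he | he
          · refine ⟨(n i - 1) / 2, ?_, ?_⟩
            · rw [h, he]
              omega
            · rw [abs_le, h2]
              constructor <;> omega
          · refine ⟨(n i + 1) / 2, ?_, ?_⟩
            · rw [h, he]
              omega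
            · rw [abs_le, h2]
              constructor <;> omega
      choose a ha1 ha2 using hdec
      have hsum : ∑ i, n i • v i = (2 : ℤ) • ∑ i, a i • v i + ∑ i, ε i • ((n i % 2) • v i) := by
        rw [Finset.smul_sum, ← Finset.sum_add_distrib]
        refine Finset.sum_congr rfl (fun i _ => ?_)
        conv_lhs => rw [ha1 i]
        rw [add_smul, mul_smul, mul_smul]
      set w := ∑ i, a i • v i with hw
      have h2w : ‖P ((2 : ℤ) • w)‖ ≤ R / 2 + W := by
        have h1 : (2 : ℤ) • w = ∑ i, n i • v i - ∑ i, ε i • ((n i % 2) • v i) := by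
          rw [hsum]; abel
        rw [h1, map_sub]
        exact (norm_sub_le _ _).trans (add_le_add hnR hσ)
      have h2w' : ‖P ((2 : ℤ) • w)‖ = 2 * ‖P w‖ := by
        rw [map_zsmul, two_zsmul, ← two_smul ℝ, norm_smul]
        norm_num
      have hwS : w ∈ S := by
        refine ih (N - 1) (by omega) a ha2 ?_
        rw [h2w'] at h2w
        linarith
      have h2wS : (2 : ℤ) • w ∈ S := by
        have h1 : (2 : ℤ) • w = w + w := two_zsmul w
        rw [h1] at h2w ⊢
        exact hadd w hwS w hwS (by linarith)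
      rw [hsum]
      refine hadd _ h2wS _ hεS ?_
      rw [← hsum]
      linarith [norm_nonneg (P (∑ i, n i • v i))]

/-- rounding in a Euclidean space -/
theorem round_choice {ι : Type*} [DecidableEq ι] (v : ι → V) {ρ : ℝ} (hv : ∀ i, ‖v i‖ ≤ ρ)
    (α : ι → ℝ) (T : Finset ι) :
    ∃ k : ι → ℤ, ‖∑ i ∈ T, (α i - k i) • v i‖ ^ 2 ≤ T.card * ρ ^ 2 := by
  induction T using Finset.induction_on with
  | empty => exact ⟨fun _ => 0, by simp⟩
  | insert a T ha ih =>
    obtain ⟨k, hk⟩ := ih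
    have hva : ‖v a‖ ^ 2 ≤ ρ ^ 2 := pow_le_pow_left₀ (norm_nonneg _) (hv a) 2
    have hex : ∃ s : ℤ, ‖∑ i ∈ T, (α i - k i) • v i + (α a - s) • v a‖ ^ 2 ≤
        T.card * ρ ^ 2 + ρ ^ 2 := by
      have h1 := Int.floor_le (α a)
      have h2 := Int.lt_floor_add_one (α a)
      rcases sign_choice (∑ i ∈ T, (α i - k i) • v i) (v a) (x := α a - (⌊α a⌋ : ℝ))
        (y := α a - ((⌊α a⌋ + 1 : ℤ) : ℝ)) (by linarith) (by linarith)
        (by push_cast; linarith) (by push_cast; linarith) with h | h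
      · exact ⟨⌊α a⌋, by linarith⟩
      · exact ⟨⌊α a⌋ + 1, by linarith⟩
    obtain ⟨s, hs⟩ := hex
    refine ⟨Function.update k a s, ?_⟩
    have hsum : ∑ i ∈ insert a T, (α i - (Function.update k a s i : ℤ)) • v i =
        ∑ i ∈ T, (α i - k i) • v i + (α a - s) • v a := by
      rw [Finset.sum_insert ha, Function.update_self, add_comm]
      congr 1
      refine Finset.sum_congr rfl (fun i hi => ?_)
      rw [Function.update_of_ne (ne_of_mem_of_not_mem hi ha)]
    rw [hsum, Finset.card_insert_of_notMem ha]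
    push_cast
    linarith

/-- **Locality in Euclidean spaces.** -/
theorem localityE [FiniteDimensional ℝ V] (P : M →+ V) (S : Set M) (h0 : (0 : M) ∈ S)
    (hneg : ∀ g ∈ S, -g ∈ S) {R ρ W : ℝ}
    (hadd : ∀ g ∈ S, ∀ h ∈ S, ‖P (g + h)‖ ≤ R → g + h ∈ S) (hρ0 : 0 ≤ ρ) (hW : 0 ≤ W)
    (E : Set M) (hE : E ⊆ S) (hEρ : ∀ g ∈ E, ‖P g‖ ≤ ρ) (hρW : ρ ≤ W) (hWR : 10 * W ≤ R)
    (hd : (Module.finrank ℝ V : ℝ) * ρ ^ 2 ≤ W ^ 2)
    {g : M} (hg : g ∈ AddSubgroup.closure E) (hgR : ‖P g‖ ≤ R / 4) : g ∈ S := by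
  classical
  obtain ⟨b, hbE, hbs, hbl⟩ := exists_linearIndependent ℝ (P '' E)
  have hbfin : Finite b := hbl.finite
  have : Fintype b := Fintype.ofFinite b
  have hbc : (Fintype.card b : ℝ) ≤ Module.finrank ℝ V := by
    exact_mod_cast hbl.fintype_card_le_finrank
  have hch : ∀ i : b, ∃ m ∈ E, P m = i := fun i => hbE i.2
  choose v hvE hvP using hch
  have hvS : ∀ i, v i ∈ S := fun i => hE (hvE i)
  have hvρ : ∀ i, ‖P (v i)‖ ≤ ρ := fun i => hEρ _ (hvE i)
  have hcW : (Fintype.card b : ℝ) * ρ ^ 2 ≤ W ^ 2 :=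
    (mul_le_mul_of_nonneg_right hbc (sq_nonneg ρ)).trans hd
  have hcomb : ∀ n : b → ℤ, ‖P (∑ i, n i • v i)‖ ≤ R / 2 → ∑ i, n i • v i ∈ S := by
    intro n hn
    refine comb_memE P S h0 hneg hadd hρ0 hW hWR v hvS hvρ hcW (∑ i, (n i).natAbs) n ?_ hn
    intro i
    have h1 : (n i).natAbs ≤ ∑ i, (n i).natAbs :=
      Finset.single_le_sum (f := fun i => (n i).natAbs) (fun _ _ => Nat.zero_le _) (Finset.mem_univ i)
    rw [Int.abs_eq_natAbs]
    exact_mod_cast h1
  -- rounding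
  have hround : ∀ z ∈ S, P z ∈ Submodule.span ℝ (P '' E) → ‖P z‖ ≤ 2 * W →
      ∃ n : b → ℤ, ∃ z' ∈ S, P z' ∈ Submodule.span ℝ (P '' E) ∧ ‖P z'‖ ≤ W ∧
        z = z' + ∑ i, n i • v i := by
    intro z hz hzs hzn
    have hz1 : P z ∈ Submodule.span ℝ (Set.range (fun i : b => (i : V))) := by
      rw [Subtype.range_coe, hbs]
      exact hzs
    obtain ⟨α, hα⟩ := (Submodule.mem_span_range_iff_exists_fun ℝ).1 hz1
    obtain ⟨k, hk⟩ := round_choice (fun i : b => (i : V)) (ρ := ρ)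
      (fun i => by rw [← hvP]; exact hvρ i) α Finset.univ
    rw [Finset.card_univ] at hk
    have hP : P (∑ i, k i • v i) = ∑ i, (k i : ℝ) • (i : V) := by
      rw [map_sum]
      refine Finset.sum_congr rfl (fun i _ => ?_)
      rw [map_zsmul, hvP, Int.cast_smul_eq_zsmul]
    have hdiff : ‖P z - P (∑ i, k i • v i)‖ ≤ W := by
      have h1 : P z - P (∑ i, k i • v i) = ∑ i : b, (α i - k i) • (i : V) := by
        rw [hP, ← hα, ← Finset.sum_sub_distrib]
        refine Finset.sum_congr rfl (fun i _ => ?_)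
        rw [sub_smul]
      rw [h1]
      exact le_of_sq hW (hk.trans hcW)
    have hkn : ‖P (∑ i, k i • v i)‖ ≤ R / 2 := by
      have h1 : P (∑ i, k i • v i) = P z - (P z - P (∑ i, k i • v i)) := by abel
      rw [h1]
      refine (norm_sub_le _ _).trans ?_
      linarith
    have hkS := hcomb k hkn
    refine ⟨k, z + -(∑ i, k i • v i), ?_, ?_, ?_, by abel⟩
    · refine hadd z hz _ (hneg _ hkS) ?_
      rw [map_add, map_neg, ← sub_eq_add_neg]
      linarith
    · rw [map_add, map_neg]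
      refine Submodule.add_mem _ hzs (Submodule.neg_mem _ ?_)
      rw [hP]
      refine Submodule.sum_mem _ (fun i _ => Submodule.smul_mem _ _ ?_)
      rw [← hbs]
      exact Submodule.subset_span i.2
    · rw [map_add, map_neg, ← sub_eq_add_neg]
      exact hdiff
  -- every element of the closure
  have hall : ∀ g ∈ AddSubgroup.closure E, ∃ n : b → ℤ, ∃ z' ∈ S,
      P z' ∈ Submodule.span ℝ (P '' E) ∧ ‖P z'‖ ≤ W ∧ g = z' + ∑ i, n i • v i := by
    intro g hg
    induction hg using AddSubgroup.closure_induction with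
    | mem x hx =>
      refine hround x (hE hx) (Submodule.subset_span ⟨x, hx, rfl⟩) ?_
      have := hEρ x hx
      linarith
    | zero => exact ⟨0, 0, h0, by simp, by simpa using hW, by simp⟩
    | add x y _ _ hx hy =>
      obtain ⟨n, z, hz, hzs, hzn, rfl⟩ := hx
      obtain ⟨n', z', hz', hzs', hzn', rfl⟩ := hy
      have h1 : ‖P (z + z')‖ ≤ 2 * W := by
        rw [map_add]
        refine (norm_add_le _ _).trans ?_
        linarith
      obtain ⟨k, y, hy, hys, hyn, he⟩ := hround (z + z') (hadd z hz z' hz' (by linarith))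
        (by rw [map_add]; exact Submodule.add_mem _ hzs hzs') h1
      refine ⟨fun i => k i + (n i + n' i), y, hy, hys, hyn, ?_⟩
      have h2 : ∑ i, (k i + (n i + n' i)) • v i = ∑ i, k i • v i + (∑ i, n i • v i + ∑ i, n' i • v i) := by
        rw [← Finset.sum_add_distrib, ← Finset.sum_add_distrib]
        refine Finset.sum_congr rfl (fun i _ => ?_)
        rw [add_smul, add_smul]
      have h3 : z + ∑ i, n i • v i + (z' + ∑ i, n' i • v i) =
          (z + z') + (∑ i, n i • v i + ∑ i, n' i • v i) := by abel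
      rw [h2, h3, he]
      abel
    | neg x _ hx =>
      obtain ⟨n, z, hz, hzs, hzn, rfl⟩ := hx
      refine ⟨fun i => - n i, -z, hneg z hz, ?_, ?_, ?_⟩
      · rw [map_neg]; exact Submodule.neg_mem _ hzs
      · rw [map_neg, norm_neg]; exact hzn
      · simp only [neg_smul, Finset.sum_neg_distrib]
        abel
  obtain ⟨n, z, hz, -, hzn, rfl⟩ := hall g hg
  refine hadd z hz _ (hcomb n ?_) (by linarith [norm_nonneg (P (z + ∑ i, n i • v i))])
  have h1 : ∑ i, n i • v i = (z + ∑ i, n i • v i) - z := by abel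
  rw [h1, map_sub]
  refine (norm_sub_le _ _).trans ?_
  linarith

end

end Pool.Agent.H98.Hil
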