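import Pool.Agent.H98.Hil.Struct
import Pool.Agent.H98.Hil.Locality2

/-!
# The deterministic part of the argument
-/

set_option autoImplicit false

namespace Pool.Agent.H98.Hil

open Finset Pool.Agent.Y806.DF
open scoped Pointwise

section
variable {Γ : Type*} [AddCommGroup Γ]

theorem QQ_add {J : Type*} {m : J → ℕ} {γ : (t : J) → Fin (m t) → AddChar Γ ℂ}
    (hγ : ∀ t i x, ‖γ t i x‖ = 1) (t : J) (x y : Γ) :
    QQ γ t (x + y) ≤ 6 / 5 * QQ γ t x + 6 * QQ γ t y := by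
  unfold QQ
  rw [Finset.mul_sum, Finset.mul_sum, ← Finset.sum_add_distrib]
  refine Finset.sum_le_sum (fun i _ => ?_)
  have h1 : ‖1 - γ t i (x + y)‖ ≤ ‖1 - γ t i x‖ + ‖1 - γ t i y‖ := by
    have h2 : 1 - γ t i (x + y) = (1 - γ t i x) + γ t i x * (1 - γ t i y) := by
      rw [AddChar.map_add_eq_mul]
      ring
    rw [h2]
    refine (norm_add_le _ _).trans ?_
    rw [norm_mul, hγ, one_mul]
  have h3 := pow_le_pow_left₀ (norm_nonneg _) h1 2
  refine h3.trans ?_
  nlinarith [sq_nonneg (‖1 - γ t i x‖ - 5 * ‖1 - γ t i y‖)]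

/-- going down one scale -/
theorem step_down {ℓ : Γ → ℝ} (hneg : ∀ x, ℓ (-x) = ℓ x) (hadd : ∀ x y, ℓ (x + y) ≤ ℓ x + ℓ y)
    {J : Type*} {m : J → ℕ} {γ : (t : J) → Fin (m t) → AddChar Γ ℂ}
    (hγ : ∀ t i x, ‖γ t i x‖ = 1) (t : J) (k : ℕ) (Y : Finset Γ)
    (hY : ∀ x, (2 : ℝ) ^ k < ℓ x → ℓ x ≤ 2 ^ (k + 3) → x ∈ Y) (E : Finset Γ)
    (hE : ∀ e ∈ E, ℓ e ≤ 1) (hEQ : ∀ e ∈ E, QQ γ t e ≤ 1 / 128 * m t)
    (hbad : ({y ∈ Y | QQ γ t y ≤ 0.36 * m t}.card) < E.card) {x : Γ} (hx : ℓ x ≤ 2 ^ (k + 2))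
    (hxQ : QQ γ t x ≤ m t / 4) : ℓ x ≤ 2 ^ (k + 1) := by
  classical
  by_contra hcon
  push Not at hcon
  have h1 : E.card ≤ ({y ∈ Y | QQ γ t y ≤ 0.36 * m t}.card) := by
    refine Finset.card_le_card_of_injOn (fun e => x + e) ?_ ?_
    · intro e he
      have he' := Finset.mem_coe.1 he
      have hle := hE e he'
      have h2k : (1 : ℝ) ≤ 2 ^ k := one_le_pow₀ (by norm_num)
      rw [Finset.mem_coe, Finset.mem_filter]
      constructor
      · refine hY _ ?_ ?_
        · have h2 := hadd (x + e) (-e)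
          rw [hneg, add_neg_cancel_right] at h2
          have h3 : (2 : ℝ) ^ (k + 1) = 2 * 2 ^ k := by ring
          rw [h3] at hcon
          linarith
        · have h2 := hadd x e
          have h3 : (2 : ℝ) ^ (k + 3) = 8 * 2 ^ k := by ring
          have h4 : (2 : ℝ) ^ (k + 2) = 4 * 2 ^ k := by ring
          rw [h3]
          rw [h4] at hx
          linarith
      · have h2 := QQ_add hγ t x e
        have h3 := hEQ e he'
        have h4 : (0 : ℝ) ≤ m t := Nat.cast_nonneg _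
        norm_num at h3 ⊢
        linarith
    · intro e _ e' _ h
      exact add_left_cancel h
  omega

/-- **The deterministic part.** -/
theorem det {ℓ : Γ → ℝ} (h0 : ℓ 0 = 0) (hneg : ∀ x, ℓ (-x) = ℓ x)
    (hadd : ∀ x y, ℓ (x + y) ≤ ℓ x + ℓ y) (a I : ℕ) {m : Fin (I + 1) → ℕ} (hm : ∀ t, 0 < m t)
    {γ : (t : Fin (I + 1)) → Fin (m t) → AddChar Γ ℂ} (hγ : ∀ t i x, ‖γ t i x‖ = 1)
    (D : Finset Γ) (hD : ∀ x, ℓ x ≤ 2 ^ (a + 1) → x ∈ D) (Y : Fin (I + 1) → Finset Γ)
    (hY : ∀ t x, (2 : ℝ) ^ (t.val + a) < ℓ x → ℓ x ≤ 2 ^ (t.val + a + 3) → x ∈ Y t) (E : Finset Γ)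
    (hE : ∀ e ∈ E, ℓ e ≤ 1) {β : Fin (I + 1) → ℝ} (hβ0 : ∀ t, 0 < β t) (hβ1 : ∀ t, β t ≤ 1 / 128)
    (hEQ : ∀ t, ∀ e ∈ E, QQ γ t e ≤ β t * m t)
    (hbad : ∀ t, ({y ∈ Y t | QQ γ t y ≤ 0.36 * m t}.card) < E.card)
    (hI : 4000 * (m (Fin.last I) * β (Fin.last I)) ≤ 1) :
    ∃ (d : ℕ) (X : Finset (Fin d → ℤ)) (ψ : (Fin d → ℤ) →+ Γ) (H : AddSubgroup Γ),
      X.Nonempty ∧ Finite H ∧ hull X ⊆ X ∧
      ((X + X).card : ℝ) * Nat.card H ≤
        D.card * Real.exp (∑ t : Fin (I + 1), m t * (β t * (Real.log (1 / β t) + 3))) ∧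
      ∀ e ∈ E, ∃ c ∈ X, ∃ h ∈ H, e = ψ c + h := by
  classical
  -- going down
  have hdown : ∀ (t : Fin (I + 1)) (x : Γ), ℓ x ≤ 2 ^ (t.val + a + 2) → QQ γ t x ≤ m t / 4 →
      ℓ x ≤ 2 ^ (t.val + a + 1) := by
    intro t x hx hxQ
    refine step_down hneg hadd hγ t (t.val + a) (Y t) (hY t) E hE ?_ (hbad t) hx hxQ
    intro e he
    exact (hEQ t e he).trans (mul_le_mul_of_nonneg_right (hβ1 t) (Nat.cast_nonneg _))
  have hdesc : ∀ x : Γ, ℓ x ≤ 2 ^ (I + a + 2) → (∀ t, QQ γ t x ≤ m t / 4) → ℓ x ≤ 2 ^ (a + 1) := by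
    intro x hx hxQ
    have h1 : ∀ j : ℕ, j ≤ I + 1 → ℓ x ≤ 2 ^ (I + a + 2 - j) := by
      intro j
      induction j with
      | zero => intro _; exact hx
      | succ j ih =>
        intro hj
        have h2 := ih (by omega)
        have h3 := hdown ⟨I - j, by omega⟩ x (by
          have e : I - j + a + 2 = I + a + 2 - j := by omega
          show ℓ x ≤ 2 ^ (I - j + a + 2)
          rw [e]
          exact h2) (hxQ _)
        have e : I - j + a + 1 = I + a + 2 - (j + 1) := by omega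
        have h4 : ℓ x ≤ 2 ^ (I - j + a + 1) := h3
        rwa [e] at h4
    have h5 := h1 (I + 1) le_rfl
    have e : I + a + 2 - (I + 1) = a + 1 := by omega
    rwa [e] at h5
  -- the lifts of the elements of `E`
  have hlift : ∀ e : Γ, ∃ u : VV m, (e, u) ∈ GG γ ∧ ∀ t, 16 * ‖u t‖ ^ 2 ≤ QQ γ t e :=
    fun e => lift_exists hγ e
  choose u hu1 hu2 using hlift
  set R : Fin (I + 1) → ℝ := fun t => Real.sqrt (β t * m t) / 4 with hR
  have hR0 : ∀ t, 0 ≤ R t := fun t => by simp only [hR]; positivity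
  have hRsq : ∀ t, (4 * R t) ^ 2 = β t * m t := by
    intro t
    have h1 : 4 * R t = Real.sqrt (β t * m t) := by
      simp only [hR]
      ring
    rw [h1, Real.sq_sqrt (mul_nonneg (hβ0 t).le (Nat.cast_nonneg _))]
  have huR : ∀ e ∈ E, ∀ t, ‖u e t‖ ≤ R t := by
    intro e he t
    have h1 := (hu2 e t).trans (hEQ t e he)
    rw [← hRsq t] at h1
    have h2 : (4 * ‖u e t‖) ^ 2 ≤ (4 * R t) ^ 2 := by linarith
    have h3 := (sq_le_sq₀ (by positivity) (by have := hR0 t; positivity)).1 h2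
    linarith
  set EE : Finset (Γ × VV m) := E.image (fun e => (e, u e)) with hEE
  set Λ : AddSubgroup (Γ × VV m) := AddSubgroup.closure (EE : Set (Γ × VV m)) with hΛ
  have hΛG : Λ ≤ GG γ := by
    rw [hΛ, AddSubgroup.closure_le]
    intro p hp
    obtain ⟨e, -, rfl⟩ := Finset.mem_image.1 (Finset.mem_coe.1 hp)
    exact hu1 e
  have hπ := Real.pi_pos
  have hπ1 := Real.pi_gt_three
  have hπ2 := Real.pi_lt_d2
  have hπ4 : Real.pi ^ 2 ≤ 10 := by nlinarith
  -- locality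
  have hloc : ∀ p ∈ Λ, (∀ t, ‖p.2 t‖ ≤ 2 * R t) → ℓ p.1 ≤ 2 ^ (I + a + 1) := by
    intro p hp hpR
    set M : ℝ := (m (Fin.last I) : ℝ) with hM
    set B : ℝ := β (Fin.last I) with hB
    have hB0 : 0 < B := hβ0 _
    have hM1 : 1 ≤ M := by
      rw [hM]
      exact_mod_cast hm (Fin.last I)
    set s := Real.sqrt M with hs
    have hs0 : 0 < s := Real.sqrt_pos.2 (by linarith)
    have hss : s ^ 2 = M := Real.sq_sqrt (by linarith)
    have hs1 : 1 ≤ s := by
      rw [hs]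
      exact Real.one_le_sqrt.2 hM1
    set R0 : ℝ := s / (4 * Real.pi) with hR0'
    have hR0pos : 0 < R0 := by positivity
    set W : ℝ := s * R (Fin.last I) with hWdef
    have hW0 : 0 ≤ W := mul_nonneg hs0.le (hR0 _)
    let P : Γ × VV m →+ EuclideanSpace ℝ (Fin (m (Fin.last I))) :=
      (Pi.evalAddMonoidHom (fun t : Fin (I + 1) => EuclideanSpace ℝ (Fin (m t))) (Fin.last I)).comp
        (AddMonoidHom.snd Γ (VV m))
    have hP : ∀ p, P p = p.2 (Fin.last I) := fun _ => rfl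
    have hWR : 10 * W ≤ R0 := by
      have h1 : (10 * W) ^ 2 ≤ R0 ^ 2 := by
        have h2 : (10 * W) ^ 2 = 100 / 16 * (M * (B * M)) := by
          have h3 := hRsq (Fin.last I)
          rw [hWdef, mul_pow, mul_pow, hss]
          have h4 : R (Fin.last I) ^ 2 = (B * M) / 16 := by
            rw [mul_pow] at h3
            rw [hB, hM]
            linarith
          rw [h4]
          ring
        rw [h2, hR0', div_pow, hss, le_div_iff₀ (by positivity)]
        have h5 : 100 / 16 * (4 * Real.pi) ^ 2 ≤ 1000 := by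
          have : (4 * Real.pi) ^ 2 = 16 * Real.pi ^ 2 := by ring
          rw [this]
          linarith
        calc 100 / 16 * (M * (B * M)) * (4 * Real.pi) ^ 2
            = (100 / 16 * (4 * Real.pi) ^ 2) * (M * (M * B)) := by ring
          _ ≤ 1000 * (M * (M * B)) := mul_le_mul_of_nonneg_right h5 (by positivity)
          _ = M * (1000 * (M * B)) := by ring
          _ ≤ M * 1 := mul_le_mul_of_nonneg_left (by
              have : 0 ≤ M * B := by positivity
              linarith) (by linarith)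
          _ = M := mul_one M
      exact le_of_sq hR0pos.le h1
    have key := localityE P {q : Γ × VV m | q ∈ GG γ ∧ ℓ q.1 ≤ 2 ^ (I + a + 1)} (R := R0)
      (ρ := R (Fin.last I)) (W := W) ?_ ?_ ?_ (hR0 _) hW0 (EE : Set (Γ × VV m)) ?_ ?_ ?_ hWR ?_
      (g := p) hp ?_
    · exact key.2
    · refine ⟨(GG γ).zero_mem, ?_⟩
      show ℓ 0 ≤ _
      rw [h0]
      positivity
    · rintro q ⟨hq, hq2⟩
      refine ⟨(GG γ).neg_mem hq, ?_⟩
      show ℓ (-q.1) ≤ _
      rw [hneg]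
      exact hq2
    · rintro q ⟨hq, hq2⟩ q' ⟨hq', hq2'⟩ hn
      refine ⟨(GG γ).add_mem hq hq', ?_⟩
      have h1 := (GG γ).add_mem hq hq'
      have h2 : ℓ (q + q').1 ≤ 2 ^ (I + a + 2) := by
        refine (hadd q.1 q'.1).trans ?_
        have : (2 : ℝ) ^ (I + a + 2) = 2 ^ (I + a + 1) + 2 ^ (I + a + 1) := by ring
        linarith
      refine hdown (Fin.last I) _ h2 ?_
      refine (lift_norm h1 (Fin.last I)).trans ?_
      have h3 : 2 * Real.pi * ‖(q + q').2 (Fin.last I)‖ ≤ s / 2 := by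
        have h4 : ‖(q + q').2 (Fin.last I)‖ ≤ R0 := hn
        calc 2 * Real.pi * ‖(q + q').2 (Fin.last I)‖ ≤ 2 * Real.pi * R0 :=
              mul_le_mul_of_nonneg_left h4 (by positivity)
          _ = s / 2 := by
              rw [hR0']
              field_simp
              norm_num
      calc (2 * Real.pi * ‖(q + q').2 (Fin.last I)‖) ^ 2 ≤ (s / 2) ^ 2 :=
            pow_le_pow_left₀ (by positivity) h3 2
        _ = (m (Fin.last I) : ℝ) / 4 := by
            rw [div_pow, hss, hM]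
            norm_num
    · intro q hq
      obtain ⟨e, he, rfl⟩ := Finset.mem_image.1 (Finset.mem_coe.1 hq)
      refine ⟨hu1 e, (hE e he).trans ?_⟩
      exact one_le_pow₀ (by norm_num)
    · intro q hq
      obtain ⟨e, he, rfl⟩ := Finset.mem_image.1 (Finset.mem_coe.1 hq)
      exact huR e he _
    · have h1 : 1 * R (Fin.last I) ≤ s * R (Fin.last I) :=
        mul_le_mul_of_nonneg_right hs1 (hR0 _)
      linarith
    · rw [finrank_euclideanSpace, Fintype.card_fin, hWdef, mul_pow, hss]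
    · have h1 := hpR (Fin.last I)
      have h2 := hR0 (Fin.last I)
      show ‖p.2 (Fin.last I)‖ ≤ _
      have h3 : 1 * R (Fin.last I) ≤ s * R (Fin.last I) :=
        mul_le_mul_of_nonneg_right hs1 h2
      linarith
  -- the elements of `Λ` are small
  have hsmall : ∀ p ∈ Λ, (∀ t, ‖p.2 t‖ ≤ 2 * R t) → p.1 ∈ D := by
    intro p hp hpR
    refine hD _ (hdesc _ ?_ ?_)
    · refine (hloc p hp hpR).trans ?_
      exact pow_le_pow_right₀ (by norm_num) (by omega)
    · intro t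
      refine (lift_norm (hΛG hp) t).trans ?_
      have h1 : 2 * Real.pi * ‖p.2 t‖ ≤ Real.pi * (4 * R t) := by
        calc 2 * Real.pi * ‖p.2 t‖ ≤ 2 * Real.pi * (2 * R t) :=
              mul_le_mul_of_nonneg_left (hpR t) (by positivity)
          _ = Real.pi * (4 * R t) := by ring
      calc (2 * Real.pi * ‖p.2 t‖) ^ 2 ≤ (Real.pi * (4 * R t)) ^ 2 :=
            pow_le_pow_left₀ (by positivity) h1 2
        _ = Real.pi ^ 2 * (β t * m t) := by rw [mul_pow, hRsq]
        _ ≤ 10 * (1 / 128 * m t) := by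
            refine mul_le_mul hπ4 (mul_le_mul_of_nonneg_right (hβ1 t) (Nat.cast_nonneg _))
              (mul_nonneg (hβ0 t).le (Nat.cast_nonneg _)) (by norm_num)
        _ ≤ m t / 4 := by
            have : (0 : ℝ) ≤ m t := Nat.cast_nonneg _
            norm_num
            linarith
  obtain ⟨d, X, ψ, H, hX, hH, hhull, hcard, hcov⟩ := structure_thm (γ := γ) Λ ⟨EE, rfl⟩ hΛG D (R := R)
    (a := β) hR0 hβ0 (fun t => (hβ1 t).trans (by norm_num)) (fun t => (hRsq t).le) hsmall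
  refine ⟨d, X, ψ, H, hX, hH, hhull, hcard, ?_⟩
  intro e he
  refine hcov (e, u e) ?_ (fun t => huR e he t)
  exact AddSubgroup.subset_closure (Finset.mem_coe.2 (Finset.mem_image.2 ⟨e, he, rfl⟩))

end

end Pool.Agent.H98.Hil
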