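import Pool.Agent.H98.Hil.Core2

/-!
# General abelian groups
-/

set_option autoImplicit false

namespace Pool.Agent.H98.Hil

open Finset Pool.Agent.Y806.DF
open scoped Pointwise

universe u v

/-- **The structure theorem for the balls.** -/
theorem gen {q : ℝ} (hq2 : 2 ≤ q) (hq4 : q < 4) :
    ∃ (a : ℕ) (W w : ℝ), 0 < w ∧ w < 1 ∧ 0 ≤ W ∧
    ∀ (Γ : Type u) (E : Type v) [AddCommGroup Γ] [NormedAddCommGroup E]
    [InnerProductSpace ℝ E] (b : Γ → E) (ℓ : Γ → ℝ) (_ : ∀ x y, ‖b x - b y‖ = ℓ (x - y))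
    (κ : ℝ) (_ : 0 ≤ κ) (I : ℕ) (_ : W * (κ + 1) * w ^ I ≤ 1)
    (D : ℕ → Finset Γ) (_ : ∀ n ≤ I + a + 3, ∀ x, x ∈ D n ↔ ℓ x ≤ 2 ^ n)
    (_ : ∀ n ≤ I + a + 3, ((D n).card : ℝ) ≤ Real.exp (κ * q ^ n) * (D 0).card),
    ∃ (E' : Finset Γ) (d : ℕ) (X : Finset (Fin d → ℤ)) (ψ : (Fin d → ℤ) →+ Γ) (H : AddSubgroup Γ),
      E' ⊆ D 0 ∧ ((D 0).card : ℝ) ≤ 2 * E'.card ∧
      X.Nonempty ∧ Finite H ∧ hull X ⊆ X ∧
      ((X + X).card : ℝ) * Nat.card H ≤ (D (a + 1)).card * Real.exp (W * (κ + 1)) ∧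
      ∀ e ∈ E', ∃ c ∈ X, ∃ h ∈ H, e = ψ c + h := by
  obtain ⟨a, W, w, hw0, hw1, hW, hcore⟩ := core.{u, v} hq2 hq4
  refine ⟨a, W, w, hw0, hw1, hW, ?_⟩
  intro Γ E _ _ _ b ℓ hb κ hκ I hI D hD hgrow
  classical
  set Γ₀ : AddSubgroup Γ := AddSubgroup.closure (D (I + a + 3) : Set Γ) with hΓ₀
  have hFG : AddGroup.FG Γ₀ := by
    rw [AddGroup.fg_iff_addSubgroup_fg]
    exact ⟨D (I + a + 3), hΓ₀.symm⟩
  have hmem : ∀ n ≤ I + a + 3, ∀ x ∈ D n, x ∈ Γ₀ := by
    intro n hn x hx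
    refine AddSubgroup.subset_closure (Finset.mem_coe.2 ((hD _ le_rfl x).2 ?_))
    exact ((hD n hn x).1 hx).trans (pow_le_pow_right₀ (by norm_num) hn)
  set D₀ : ℕ → Finset Γ₀ := fun n => (D n).subtype (· ∈ Γ₀) with hD₀
  have hD₀mem : ∀ n (x : Γ₀), x ∈ D₀ n ↔ (x : Γ) ∈ D n := fun n x => Finset.mem_subtype
  have hcard : ∀ n ≤ I + a + 3, (D₀ n).card = (D n).card := by
    intro n hn
    simp only [hD₀]
    rw [Finset.card_subtype]
    congr 1
    exact Finset.filter_true_of_mem (hmem n hn)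
  obtain ⟨E', d, X, ψ, H, hE'D, hE'c, hX, hH, hhull, hXX, hcov⟩ := hcore Γ₀ E (fun x => b x)
    (fun x => ℓ x) (fun x y => hb x y) κ hκ I hI D₀
    (fun n hn x => by rw [hD₀mem]; exact hD n hn x)
    (fun n hn => by rw [hcard n hn, hcard 0 (by omega)]; exact hgrow n hn)
  have hinj : Function.Injective Γ₀.subtype := Γ₀.subtype_injective
  refine ⟨E'.image Γ₀.subtype, d, X, Γ₀.subtype.comp ψ, H.map Γ₀.subtype, ?_, ?_, hX, ?_, hhull,
    ?_, ?_⟩
  · intro x hx
    obtain ⟨y, hy, rfl⟩ := Finset.mem_image.1 hx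
    exact (hD₀mem 0 y).1 (hE'D hy)
  · rw [Finset.card_image_of_injective _ hinj, ← hcard 0 (by omega)]
    exact hE'c
  · have : (H.map Γ₀.subtype : Set Γ).Finite := by
      rw [AddSubgroup.coe_map]
      exact (Set.toFinite (H : Set Γ₀)).image _
    exact this.to_subtype
  · have h1 : Nat.card (H.map Γ₀.subtype) = Nat.card H :=
      Nat.card_congr (H.equivMapOfInjective Γ₀.subtype hinj).toEquiv.symm
    rw [h1, ← hcard (a + 1) (by omega)]
    exact hXX
  · intro e he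
    obtain ⟨y, hy, rfl⟩ := Finset.mem_image.1 he
    obtain ⟨c, hc, h, hh, hyc⟩ := hcov y hy
    refine ⟨c, hc, Γ₀.subtype h, ⟨h, hh, rfl⟩, ?_⟩
    rw [hyc, map_add]
    rfl

/-- **The end of the proof.** -/
theorem finish {Γ : Type u} [AddCommGroup Γ] [DecidableEq Γ] {K B : ℝ} (hK : 1 ≤ K) (hB : 1 ≤ B)
    {A T D0 D1 E' : Finset Γ} (hA : A.Nonempty) (hT : (T.card : ℝ) ≤ K)
    (hAT : ∀ a ∈ A, ∃ t ∈ T, a - t ∈ D0) (hD0 : (D0.card : ℝ) ≤ K * A.card)
    (hD1 : (D1.card : ℝ) ≤ B * D0.card) (hadd : ∀ x ∈ D0, ∀ y ∈ D0, x + y ∈ D1)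
    (hsub : ∀ x ∈ D0, ∀ y ∈ D0, x - y ∈ D1) (hE : E' ⊆ D0) (hEc : (D0.card : ℝ) ≤ 2 * E'.card)
    {d : ℕ} {X : Finset (Fin d → ℤ)} {ψ : (Fin d → ℤ) →+ Γ} {H : AddSubgroup Γ}
    (hX : X.Nonempty) (hH : Finite H) (hhull : hull X ⊆ X)
    (hXX : ((X + X).card : ℝ) * Nat.card H ≤ B * D0.card)
    (hcov : ∀ e ∈ E', ∃ c ∈ X, ∃ h ∈ H, e = ψ c + h) :
    ∃ (r : ℕ) (B' : Set (Fin r → ℝ)) (θ : (Fin r → ℤ) →+ Γ) (H' : AddSubgroup Γ) (T' : Finset Γ),
      (r : ℝ) ≤ 500 * Real.log (2 * (2 * B * K ^ 3)) ∧ Body B' ∧ Finite H' ∧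
      (lat B').ncard * Nat.card H' ≤ A.card ∧ (T'.card : ℝ) ≤ 5000 * (2 * B * K ^ 3) ^ 5000 ∧
      Cov B' θ H' T' A := by
  classical
  have hK0 : 0 < K := by linarith
  have hB0 : 0 < B := by linarith
  have hAr : (0 : ℝ) < A.card := by exact_mod_cast hA.card_pos
  have hHpos : 0 < Nat.card H := Nat.card_pos
  have hHr : (0 : ℝ) < Nat.card H := by exact_mod_cast hHpos
  have hXr : (0 : ℝ) < X.card := by exact_mod_cast hX.card_pos
  have hK3 : K ≤ K ^ 3 := by
    calc K = K ^ 1 := (pow_one K).symm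
      _ ≤ K ^ 3 := pow_le_pow_right₀ hK (by norm_num)
  have hK2 : K ^ 2 ≤ K ^ 3 := pow_le_pow_right₀ hK (by norm_num)
  have h1K3 : 1 ≤ K ^ 3 := one_le_pow₀ hK
  have hD0pos : (0 : ℝ) < D0.card := by
    obtain ⟨a, ha⟩ := hA
    obtain ⟨t, _, ht⟩ := hAT a ha
    exact_mod_cast Finset.card_pos.2 ⟨_, ht⟩
  have hEpos : (0 : ℝ) < E'.card := by linarith
  -- `A` has small doubling
  have hAsub : A ⊆ T + D0 := by
    intro a ha
    obtain ⟨t, ht, hat⟩ := hAT a ha
    exact Finset.mem_add.2 ⟨t, ht, a - t, hat, by abel⟩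
  have hdoub : ((A + A).card : ℝ) ≤ (2 * B * K ^ 3) * A.card := by
    have h1 : A + A ⊆ (T + T) + D1 := by
      intro x hx
      obtain ⟨a, ha, a', ha', rfl⟩ := Finset.mem_add.1 hx
      obtain ⟨t, ht, hat⟩ := hAT a ha
      obtain ⟨t', ht', hat'⟩ := hAT a' ha'
      refine Finset.mem_add.2 ⟨t + t', Finset.add_mem_add ht ht', (a - t) + (a' - t'),
        hadd _ hat _ hat', by abel⟩
    have h2 : ((T + T).card : ℝ) ≤ K * K := by
      calc ((T + T).card : ℝ) ≤ ((T.card * T.card : ℕ) : ℝ) := by exact_mod_cast Finset.card_add_le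
        _ = T.card * T.card := by push_cast; ring
        _ ≤ K * K := mul_le_mul hT hT (Nat.cast_nonneg _) hK0.le
    calc ((A + A).card : ℝ) ≤ (((T + T) + D1).card : ℝ) := by exact_mod_cast Finset.card_le_card h1
      _ ≤ (((T + T).card * D1.card : ℕ) : ℝ) := by exact_mod_cast Finset.card_add_le
      _ = (T + T).card * D1.card := by push_cast; ring
      _ ≤ (K * K) * (B * (K * A.card)) := by
          refine mul_le_mul h2 (hD1.trans (mul_le_mul_of_nonneg_left hD0 hB0.le))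
            (Nat.cast_nonneg _) (by positivity)
      _ = (B * K ^ 3) * A.card := by ring
      _ ≤ (2 * B * K ^ 3) * A.card := by
          refine mul_le_mul_of_nonneg_right ?_ hAr.le
          have : 0 < B * K ^ 3 := by positivity
          linarith
  -- `E'` is covered
  have hEX : (E'.card : ℝ) ≤ X.card * Nat.card H := by
    have hHft : Fintype H := Fintype.ofFinite H
    have h1 : E' ⊆ (X ×ˢ (Finset.univ : Finset H)).image (fun p => ψ p.1 + (p.2 : Γ)) := by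
      intro e he
      obtain ⟨c, hc, h, hh, rfl⟩ := hcov e he
      exact Finset.mem_image.2 ⟨(c, ⟨h, hh⟩), Finset.mem_product.2 ⟨hc, Finset.mem_univ _⟩, rfl⟩
    have h2 := (Finset.card_le_card h1).trans Finset.card_image_le
    rw [Finset.card_product, Finset.card_univ, ← Nat.card_eq_fintype_card] at h2
    exact_mod_cast h2
  -- the popular translate
  have hpop : ∃ z : Γ, (A.card : ℝ) ≤ (2 * B * K ^ 3) * (({a ∈ A | a - z ∈ E'}).card : ℝ) := by
    by_contra hcon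
    push Not at hcon
    have h1 : ((A - E').card : ℝ) ≤ K * (B * D0.card) := by
      have h2 : A - E' ⊆ T + D1 := by
        intro x hx
        obtain ⟨a, ha, e, he, rfl⟩ := Finset.mem_sub.1 hx
        obtain ⟨t, ht, hat⟩ := hAT a ha
        exact Finset.mem_add.2 ⟨t, ht, (a - t) - e, hsub _ hat _ (hE he), by abel⟩
      calc ((A - E').card : ℝ) ≤ ((T + D1).card : ℝ) := by exact_mod_cast Finset.card_le_card h2
        _ ≤ ((T.card * D1.card : ℕ) : ℝ) := by exact_mod_cast Finset.card_add_le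
        _ = T.card * D1.card := by push_cast; ring
        _ ≤ K * (B * D0.card) := mul_le_mul hT hD1 (Nat.cast_nonneg _) hK0.le
    have h2 : ∑ z ∈ A - E', ({a ∈ A | a - z ∈ E'}).card = A.card * E'.card := by
      rw [← Finset.card_product, ← Finset.card_sigma]
      refine Finset.card_nbij' (fun p => (p.2, p.2 - p.1)) (fun p => ⟨p.1 - p.2, p.1⟩) ?_ ?_ ?_ ?_
      · rintro ⟨z, a⟩ hp
        have hp' := Finset.mem_sigma.1 (Finset.mem_coe.1 hp)
        have h3 := Finset.mem_filter.1 hp'.2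
        exact Finset.mem_coe.2 (Finset.mem_product.2 ⟨h3.1, h3.2⟩)
      · rintro ⟨a, e⟩ hp
        have hp' := Finset.mem_product.1 (Finset.mem_coe.1 hp)
        refine Finset.mem_coe.2 (Finset.mem_sigma.2 ⟨Finset.sub_mem_sub hp'.1 hp'.2, ?_⟩)
        refine Finset.mem_filter.2 ⟨hp'.1, ?_⟩
        show a - (a - e) ∈ E'
        have : a - (a - e) = e := by abel
        rw [this]
        exact hp'.2
      · rintro ⟨z, a⟩ _
        show (⟨a - (a - z), a⟩ : (_ : Γ) × Γ) = ⟨z, a⟩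
        have : a - (a - z) = z := by abel
        rw [this]
      · rintro ⟨a, e⟩ _
        show (a, a - (a - e)) = (a, e)
        have : a - (a - e) = e := by abel
        rw [this]
    have h3 : ((A.card * E'.card : ℕ) : ℝ) = ∑ z ∈ A - E', (({a ∈ A | a - z ∈ E'}).card : ℝ) := by
      rw [← h2]
      push_cast
      rfl
    have hne : (A - E').Nonempty := by
      have : E'.Nonempty := Finset.card_pos.1 (by exact_mod_cast hEpos)
      exact hA.sub this
    have h4 : (2 * B * K ^ 3) * ((A.card * E'.card : ℕ) : ℝ) < ∑ _z ∈ A - E', (A.card : ℝ) := by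
      rw [h3, Finset.mul_sum]
      exact Finset.sum_lt_sum_of_nonempty hne (fun z _ => hcon z)
    rw [Finset.sum_const, nsmul_eq_mul] at h4
    have h5 : ((A - E').card : ℝ) * A.card ≤ (K * (B * (2 * E'.card))) * A.card := by
      refine mul_le_mul_of_nonneg_right (h1.trans ?_) hAr.le
      exact mul_le_mul_of_nonneg_left (mul_le_mul_of_nonneg_left hEc hB0.le) hK0.le
    have h6 : (K * (B * (2 * E'.card))) * A.card ≤ (2 * B * K ^ 3) * ((A.card * E'.card : ℕ) : ℝ) := by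
      push_cast
      have h7 : 0 ≤ 2 * B * ((A.card : ℝ) * E'.card) := by positivity
      calc K * (B * (2 * (E'.card : ℝ))) * A.card = K * (2 * B * ((A.card : ℝ) * E'.card)) := by ring
        _ ≤ K ^ 3 * (2 * B * ((A.card : ℝ) * E'.card)) := mul_le_mul_of_nonneg_right hK3 h7
        _ = 2 * B * K ^ 3 * ((A.card : ℝ) * E'.card) := by ring
    linarith
  obtain ⟨z, hz⟩ := hpop
  have hB2 : B * D0.card ≤ 2 * B * (X.card * Nat.card H) := by
    calc B * (D0.card : ℝ) ≤ B * (2 * (X.card * Nat.card H)) := by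
          refine mul_le_mul_of_nonneg_left ?_ hB0.le
          linarith
      _ = _ := by ring
  have hBK : 2 * B ≤ 2 * B * K ^ 3 := by nlinarith
  refine main (K := 2 * B * K ^ 3) (X := X) (ψ := ψ) (H := H) (g := z) hA hdoub ⟨hX, hH, ?_, ?_, ?_, ?_⟩
  · have h1 : ((X + X).card : ℝ) * Nat.card H ≤ (2 * B * X.card) * Nat.card H := by
      refine hXX.trans (hB2.trans (le_of_eq ?_))
      ring
    have h2 := le_of_mul_le_mul_right h1 hHr
    exact h2.trans (mul_le_mul_of_nonneg_right hBK hXr.le)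
  · have h1 : ((hull X).ncard : ℝ) ≤ X.card := by
      have := Set.ncard_le_ncard hhull (Finset.finite_toSet X)
      rw [Set.ncard_coe_finset] at this
      exact_mod_cast this
    have h2 : (1 : ℝ) ≤ 2 * B * K ^ 3 := by nlinarith
    nlinarith
  · have h1 : (X.card : ℝ) ≤ (X + X).card := by exact_mod_cast Finset.card_le_card_add_right hX
    calc (X.card : ℝ) * Nat.card H ≤ (X + X).card * Nat.card H :=
          mul_le_mul_of_nonneg_right h1 hHr.le
      _ ≤ B * D0.card := hXX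
      _ ≤ B * (K * A.card) := mul_le_mul_of_nonneg_left hD0 hB0.le
      _ = (B * K) * A.card := by ring
      _ ≤ (2 * B * K ^ 3) * A.card := by
          refine mul_le_mul_of_nonneg_right ?_ hAr.le
          nlinarith
  · refine hz.trans (mul_le_mul_of_nonneg_left ?_ (by positivity))
    have h1 : (({a ∈ A | a - z ∈ E'} : Finset Γ) : Set Γ) ⊆
        {a : Γ | a ∈ A ∧ ∃ x ∈ X, ∃ h ∈ H, a = z + ψ x + h} := by
      intro a ha
      have ha' := Finset.mem_filter.1 (Finset.mem_coe.1 ha)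
      obtain ⟨c, hc, h, hh, he⟩ := hcov _ ha'.2
      refine ⟨ha'.1, c, hc, h, hh, ?_⟩
      have : a = z + (a - z) := by abel
      rw [this, he]
      abel
    have h2 : ({a : Γ | a ∈ A ∧ ∃ x ∈ X, ∃ h ∈ H, a = z + ψ x + h}).Finite :=
      (Finset.finite_toSet A).subset (fun a ha => ha.1)
    have h3 := Set.ncard_le_ncard h1 h2
    rw [Set.ncard_coe_finset] at h3
    exact_mod_cast h3

end Pool.Agent.H98.Hil
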