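import Mathlib

/-!
# The Gaussian kernel is positive semidefinite
-/

set_option autoImplicit false

namespace Pool.Agent.H98.Hil

open Finset
open scoped RealInnerProductSpace

/-- positive semidefinite kernels on a finite set -/
def PSD {α : Type*} (C : Finset α) (k : α → α → ℝ) : Prop :=
  ∀ c : α → ℝ, 0 ≤ ∑ y ∈ C, ∑ z ∈ C, c y * c z * k y z

theorem PSD.one {α : Type*} (C : Finset α) : PSD C (fun _ _ => 1) := by
  intro c
  have h1 : ∑ y ∈ C, ∑ z ∈ C, c y * c z * 1 = (∑ y ∈ C, c y) ^ 2 := by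
    rw [sq, Finset.sum_mul_sum]
    simp
  rw [h1]
  positivity

theorem PSD.scale {α : Type*} {C : Finset α} {k : α → α → ℝ} (hk : PSD C k) (f : α → ℝ) :
    PSD C (fun y z => f y * f z * k y z) := by
  intro c
  refine (hk (fun y => c y * f y)).trans (le_of_eq ?_)
  refine Finset.sum_congr rfl (fun y _ => Finset.sum_congr rfl (fun z _ => ?_))
  ring

theorem PSD.mul_inner {α E : Type*} [NormedAddCommGroup E] [InnerProductSpace ℝ E] {C : Finset α}
    {k : α → α → ℝ} (hk : PSD C k) (b : α → E) : PSD C (fun y z => k y z * ⟪b y, b z⟫) := by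
  classical
  intro c
  set W : Submodule ℝ E := Submodule.span ℝ (b '' (C : Set α)) with hW
  have hfin : (b '' (C : Set α)).Finite := (Finset.finite_toSet C).image b
  have : FiniteDimensional ℝ W := FiniteDimensional.span_of_finite ℝ hfin
  have hmem : ∀ y ∈ C, b y ∈ W := fun y hy => Submodule.subset_span ⟨y, hy, rfl⟩
  let e := stdOrthonormalBasis ℝ W
  let f : Fin (Module.finrank ℝ W) → α → ℝ := fun i y => if h : b y ∈ W then ⟪(⟨b y, h⟩ : W), e i⟫ else 0
  have hexp : ∀ y ∈ C, ∀ z ∈ C, ⟪b y, b z⟫ = ∑ i, f i y * f i z := by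
    intro y hy z hz
    have h1 := OrthonormalBasis.sum_inner_mul_inner e (⟨b y, hmem y hy⟩ : W) ⟨b z, hmem z hz⟩
    have h2 : ⟪(⟨b y, hmem y hy⟩ : W), ⟨b z, hmem z hz⟩⟫ = ⟪b y, b z⟫ := rfl
    rw [← h2, ← h1]
    refine Finset.sum_congr rfl (fun i _ => ?_)
    simp only [f, dif_pos (hmem y hy), dif_pos (hmem z hz)]
    rw [real_inner_comm (⟨b z, hmem z hz⟩ : W) (e i)]
  have h3 : ∑ y ∈ C, ∑ z ∈ C, c y * c z * (k y z * ⟪b y, b z⟫) =
      ∑ i, ∑ y ∈ C, ∑ z ∈ C, (c y * f i y) * (c z * f i z) * k y z := by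
    symm
    rw [Finset.sum_comm]
    refine Finset.sum_congr rfl (fun y hy => ?_)
    rw [Finset.sum_comm]
    refine Finset.sum_congr rfl (fun z hz => ?_)
    rw [hexp y hy z hz, Finset.mul_sum, Finset.mul_sum]
    refine Finset.sum_congr rfl (fun i _ => ?_)
    ring
  show 0 ≤ ∑ y ∈ C, ∑ z ∈ C, c y * c z * (k y z * ⟪b y, b z⟫)
  rw [h3]
  exact Finset.sum_nonneg (fun i _ => hk (fun y => c y * f i y))

theorem PSD.inner_pow {α E : Type*} [NormedAddCommGroup E] [InnerProductSpace ℝ E] (C : Finset α)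
    (b : α → E) (n : ℕ) : PSD C (fun y z => ⟪b y, b z⟫ ^ n) := by
  induction n with
  | zero => simpa using PSD.one C
  | succ n ih =>
    have := ih.mul_inner b
    simpa [pow_succ] using this

theorem PSD.exp_inner {α E : Type*} [NormedAddCommGroup E] [InnerProductSpace ℝ E] (C : Finset α)
    (b : α → E) {s : ℝ} (hs : 0 ≤ s) : PSD C (fun y z => Real.exp (s * ⟪b y, b z⟫)) := by
  intro c
  have h1 : ∀ x : ℝ, HasSum (fun n : ℕ => x ^ n / (n.factorial : ℝ)) (Real.exp x) := by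
    intro x
    rw [Real.exp_eq_exp_ℝ]
    exact NormedSpace.expSeries_div_hasSum_exp x
  have h2 : HasSum (fun n : ℕ => ∑ y ∈ C, ∑ z ∈ C, c y * c z * ((s * ⟪b y, b z⟫) ^ n / (n.factorial : ℝ)))
      (∑ y ∈ C, ∑ z ∈ C, c y * c z * Real.exp (s * ⟪b y, b z⟫)) := by
    refine hasSum_sum (fun y _ => hasSum_sum (fun z _ => ?_))
    exact (h1 _).mul_left _
  refine h2.nonneg (fun n => ?_)
  have h3 : ∑ y ∈ C, ∑ z ∈ C, c y * c z * ((s * ⟪b y, b z⟫) ^ n / (n.factorial : ℝ)) =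
      (s ^ n / (n.factorial : ℝ)) * ∑ y ∈ C, ∑ z ∈ C, c y * c z * ⟪b y, b z⟫ ^ n := by
    rw [Finset.mul_sum]
    refine Finset.sum_congr rfl (fun y _ => ?_)
    rw [Finset.mul_sum]
    refine Finset.sum_congr rfl (fun z _ => ?_)
    rw [mul_pow]
    ring
  show 0 ≤ ∑ y ∈ C, ∑ z ∈ C, c y * c z * ((s * ⟪b y, b z⟫) ^ n / (n.factorial : ℝ))
  rw [h3]
  exact mul_nonneg (by positivity) (PSD.inner_pow C b n c)

/-- **The Gaussian kernel.** -/
theorem PSD.gauss {α E : Type*} [NormedAddCommGroup E] [InnerProductSpace ℝ E] (C : Finset α)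
    (b : α → E) {s : ℝ} (hs : 0 ≤ s) : PSD C (fun y z => Real.exp (-(s * ‖b y - b z‖ ^ 2))) := by
  have h1 := (PSD.exp_inner C b (s := 2 * s) (by positivity)).scale (fun y => Real.exp (-(s * ‖b y‖ ^ 2)))
  intro c
  refine (h1 c).trans (le_of_eq ?_)
  refine Finset.sum_congr rfl (fun y _ => Finset.sum_congr rfl (fun z _ => ?_))
  congr 1
  show Real.exp (-(s * ‖b y‖ ^ 2)) * Real.exp (-(s * ‖b z‖ ^ 2)) * Real.exp (2 * s * ⟪b y, b z⟫) =
    Real.exp (-(s * ‖b y - b z‖ ^ 2))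
  rw [← Real.exp_add, ← Real.exp_add]
  congr 1
  rw [norm_sub_sq_real]
  ring

end Pool.Agent.H98.Hil
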