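import Pool.Agent.H98.Hil.Count

/-!
# Lifting characters to real vectors
-/

set_option autoImplicit false

namespace Pool.Agent.H98.Hil

open Finset

/-- the complex exponential with period one -/
noncomputable def ee (u : ℝ) : ℂ := Complex.exp (Complex.I * ((2 * Real.pi * u : ℝ) : ℂ))

theorem ee_add (u v : ℝ) : ee (u + v) = ee u * ee v := by
  unfold ee
  rw [← Complex.exp_add]
  congr 1
  push_cast
  ring

theorem ee_zero : ee 0 = 1 := by
  unfold ee
  simp

theorem ee_neg (u : ℝ) : ee (-u) * ee u = 1 := by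
  rw [← ee_add, neg_add_cancel, ee_zero]

theorem ee_norm (u : ℝ) : ‖ee u‖ = 1 := by
  unfold ee
  rw [mul_comm]
  exact Complex.norm_exp_ofReal_mul_I _

theorem ee_upper (u : ℝ) : ‖1 - ee u‖ ≤ 2 * Real.pi * |u| := by
  rw [norm_sub_rev]
  refine Real.norm_exp_I_mul_ofReal_sub_one_le.trans (le_of_eq ?_)
  rw [Real.norm_eq_abs, abs_mul, abs_of_pos (by positivity : (0 : ℝ) < 2 * Real.pi)]

theorem ee_lower {u : ℝ} (hu : |u| ≤ 1 / 2) : 4 * |u| ≤ ‖1 - ee u‖ := by
  rw [norm_sub_rev, ee, Complex.norm_exp_I_mul_ofReal_sub_one, Real.norm_eq_abs, abs_mul, abs_two]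
  have h0 := Real.pi_pos
  have h1 : |2 * Real.pi * u / 2| ≤ Real.pi / 2 := by
    rw [show 2 * Real.pi * u / 2 = Real.pi * u by ring, abs_mul, abs_of_pos h0]
    have := mul_le_mul_of_nonneg_left hu h0.le
    linarith
  have h2 := Real.mul_abs_le_abs_sin h1
  rw [show 2 * Real.pi * u / 2 = Real.pi * u by ring, abs_mul, abs_of_pos h0] at h2
  rw [show 2 * Real.pi * u / 2 = Real.pi * u by ring]
  have h3 : 2 / Real.pi * (Real.pi * |u|) = 2 * |u| := by field_simp
  rw [h3] at h2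
  linarith

theorem ee_int {u v : ℝ} (h : ee u = ee v) : ∃ n : ℤ, u - v = n := by
  unfold ee at h
  rw [Complex.exp_eq_exp_iff_exists_int] at h
  obtain ⟨n, hn⟩ := h
  refine ⟨n, ?_⟩
  have h1 : Complex.I * (2 * (Real.pi : ℂ)) * ((u - v : ℝ) : ℂ) =
      Complex.I * (2 * (Real.pi : ℂ)) * (n : ℂ) := by
    push_cast at hn ⊢
    linear_combination hn
  have h2 : Complex.I * (2 * (Real.pi : ℂ)) ≠ 0 := by
    have := Real.pi_ne_zero
    simp [this]
  have h3 := mul_left_cancel₀ h2 h1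
  exact_mod_cast h3

theorem ee_exists {z : ℂ} (hz : ‖z‖ = 1) : ∃ u : ℝ, ee u = z ∧ |u| ≤ 1 / 2 := by
  refine ⟨Complex.arg z / (2 * Real.pi), ?_, ?_⟩
  · unfold ee
    have h0 := Real.pi_ne_zero
    rw [mul_div_cancel₀ _ (by positivity : (2 * Real.pi : ℝ) ≠ 0)]
    have h1 := Complex.norm_mul_exp_arg_mul_I z
    rw [hz, Complex.ofReal_one, one_mul, mul_comm] at h1
    exact h1
  · have h1 := Complex.abs_arg_le_pi z
    have h0 := Real.pi_pos
    rw [abs_div, abs_of_pos (by positivity : (0 : ℝ) < 2 * Real.pi), div_le_iff₀ (by positivity)]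
    linarith

section
variable {Γ J : Type*} [AddCommGroup Γ] {m : J → ℕ}

/-- the space of the lifts -/
abbrev VV (m : J → ℕ) : Type _ := (t : J) → EuclideanSpace ℝ (Fin (m t))

/-- pairs of an element and a lift of its values -/
def GG (γ : (t : J) → Fin (m t) → AddChar Γ ℂ) : AddSubgroup (Γ × VV m) where
  carrier := {p | ∀ t i, γ t i p.1 = ee (p.2 t i)}
  zero_mem' := by
    intro t i
    show γ t i 0 = ee 0
    rw [AddChar.map_zero_eq_one, ee_zero]
  add_mem' := by
    intro p q hp hq t i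
    show γ t i (p.1 + q.1) = ee (p.2 t i + q.2 t i)
    rw [AddChar.map_add_eq_mul, ee_add, hp t i, hq t i]
  neg_mem' := by
    intro p hp t i
    show γ t i (-p.1) = ee (-(p.2 t i))
    have h1 : γ t i (-p.1) * γ t i p.1 = 1 := by
      rw [← AddChar.map_add_eq_mul, neg_add_cancel, AddChar.map_zero_eq_one]
    have h2 := ee_neg (p.2 t i)
    rw [← hp t i] at h2
    have h3 : γ t i p.1 ≠ 0 := by
      rw [hp t i]
      intro h
      have := ee_norm (p.2 t i)
      rw [h, norm_zero] at this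
      exact one_ne_zero this.symm
    exact mul_right_cancel₀ h3 (h1.trans h2.symm)

/-- the block sums -/
noncomputable def QQ (γ : (t : J) → Fin (m t) → AddChar Γ ℂ) (t : J) (x : Γ) : ℝ :=
  ∑ i, ‖1 - γ t i x‖ ^ 2

theorem lift_norm {γ : (t : J) → Fin (m t) → AddChar Γ ℂ} {p : Γ × VV m} (hp : p ∈ GG γ) (t : J) :
    QQ γ t p.1 ≤ (2 * Real.pi * ‖p.2 t‖) ^ 2 := by
  rw [mul_pow, EuclideanSpace.norm_sq_eq, Finset.mul_sum]
  refine Finset.sum_le_sum (fun i _ => ?_)
  rw [hp t i, ← mul_pow]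
  exact pow_le_pow_left₀ (norm_nonneg _) (ee_upper _) 2

theorem lift_exists {γ : (t : J) → Fin (m t) → AddChar Γ ℂ} (hγ : ∀ t i x, ‖γ t i x‖ = 1) (x : Γ) :
    ∃ u : VV m, (x, u) ∈ GG γ ∧ ∀ t, 16 * ‖u t‖ ^ 2 ≤ QQ γ t x := by
  have h1 : ∀ t i, ∃ u : ℝ, ee u = γ t i x ∧ |u| ≤ 1 / 2 := fun t i => ee_exists (hγ t i x)
  choose u hu1 hu2 using h1
  refine ⟨fun t => WithLp.toLp 2 (u t), ?_, ?_⟩
  · intro t i
    exact (hu1 t i).symm
  · intro t
    rw [EuclideanSpace.norm_sq_eq, Finset.mul_sum]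
    refine Finset.sum_le_sum (fun i _ => ?_)
    rw [← hu1 t i]
    have h2 := ee_lower (hu2 t i)
    have h3 : 16 * ‖u t i‖ ^ 2 = (4 * |u t i|) ^ 2 := by
      rw [Real.norm_eq_abs]
      ring
    show 16 * ‖u t i‖ ^ 2 ≤ _
    rw [h3]
    exact pow_le_pow_left₀ (by positivity) h2 2

theorem lift_int {γ : (t : J) → Fin (m t) → AddChar Γ ℂ} {p q : Γ × VV m} (hp : p ∈ GG γ)
    (hq : q ∈ GG γ) (h : p.1 = q.1) : ∃ z : (t : J) → Fin (m t) → ℤ, ∀ t i, p.2 t i - q.2 t i = z t i := by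
  have h1 : ∀ t i, ∃ n : ℤ, p.2 t i - q.2 t i = n := by
    intro t i
    refine ee_int ?_
    rw [← hp t i, ← hq t i, h]
  choose z hz using h1
  exact ⟨z, hz⟩

theorem fin_of_bound {α : Type*} {P : Set α} {B : ℝ}
    (h : ∀ F : Finset α, (F : Set α) ⊆ P → (F.card : ℝ) ≤ B) : P.Finite ∧ (P.ncard : ℝ) ≤ B := by
  have hfin : P.Finite := by
    by_contra hinf
    obtain ⟨F, hF, hFc⟩ := Set.Infinite.exists_subset_card_eq hinf (⌊B⌋₊ + 1)
    have h1 := h F hF
    rw [hFc] at h1
    push_cast at h1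
    have h2 := Nat.lt_floor_add_one B
    linarith
  refine ⟨hfin, ?_⟩
  have h1 := h hfin.toFinset (by rw [Set.Finite.coe_toFinset])
  rw [Set.ncard_eq_toFinset_card _ hfin]
  exact h1

/-- **The number of lifts.** -/
theorem lift_count [Fintype J] {γ : (t : J) → Fin (m t) → AddChar Γ ℂ} (D : Finset Γ) {r a : J → ℝ}
    (ha0 : ∀ t, 0 < a t) (ha1 : ∀ t, a t ≤ 1 / 3) (hr : ∀ t, (2 * r t) ^ 2 ≤ a t * m t)
    (F : Finset (Γ × VV m)) (hF : ∀ p ∈ F, p ∈ GG γ ∧ p.1 ∈ D ∧ ∀ t, ‖p.2 t‖ ≤ r t) :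
    (F.card : ℝ) ≤ D.card * Real.exp (∑ t, m t * (a t * (Real.log (1 / a t) + 3))) := by
  classical
  set N : ℕ := ∏ t, (pts (m t) (a t)).ncard with hN
  have hNr : (N : ℝ) ≤ Real.exp (∑ t, m t * (a t * (Real.log (1 / a t) + 3))) := by
    rw [hN, Real.exp_sum]
    push_cast
    exact Finset.prod_le_prod (fun t _ => Nat.cast_nonneg _) (fun t _ => (pts_count (ha0 t) (ha1 t)).2)
  have hcount : F.card ≤ N * D.card := by
    refine Finset.card_le_mul_card_image_of_maps_to (f := Prod.fst) (fun p hp => (hF p hp).2.1) N ?_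
    intro x _
    rcases Finset.eq_empty_or_nonempty {p ∈ F | p.1 = x} with h0 | ⟨q, hq⟩
    · rw [h0]; simp
    · have hqF := Finset.mem_filter.1 hq
      have hex : ∀ p ∈ ({p ∈ F | p.1 = x} : Finset (Γ × VV m)),
          ∃ z : (t : J) → Fin (m t) → ℤ, ∀ t i, p.2 t i - q.2 t i = z t i := by
        intro p hp
        have hpF := Finset.mem_filter.1 hp
        exact lift_int (hF p hpF.1).1 (hF q hqF.1).1 (hpF.2.trans hqF.2.symm)
      choose! z hz using hex
      have hpf : ∀ t, (pts (m t) (a t)).Finite := fun t => (pts_count (ha0 t) (ha1 t)).1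
      have h1 : ({p ∈ F | p.1 = x} : Finset (Γ × VV m)).card ≤
          (Fintype.piFinset (fun t => (hpf t).toFinset)).card := by
        refine Finset.card_le_card_of_injOn z ?_ ?_
        · intro p hp
          have hp' := Finset.mem_coe.1 hp
          have hpF := Finset.mem_filter.1 hp'
          rw [Finset.mem_coe, Fintype.mem_piFinset]
          intro t
          rw [Set.Finite.mem_toFinset]
          show ∑ i, ((z p t i : ℤ) : ℝ) ^ 2 ≤ a t * m t
          have h2 : ∑ i, ((z p t i : ℤ) : ℝ) ^ 2 = ‖p.2 t - q.2 t‖ ^ 2 := by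
            rw [EuclideanSpace.norm_sq_eq]
            refine Finset.sum_congr rfl (fun i _ => ?_)
            rw [← hz p hp' t i, Real.norm_eq_abs, sq_abs]
            rfl
          rw [h2]
          refine le_trans (pow_le_pow_left₀ (norm_nonneg _) ?_ 2) (hr t)
          have h3 := (hF p hpF.1).2.2 t
          have h4 := (hF q hqF.1).2.2 t
          have h5 := norm_sub_le (p.2 t) (q.2 t)
          linarith
        · intro p hp p' hp' hpp
          have hp1 := Finset.mem_coe.1 hp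
          have hp1' := Finset.mem_coe.1 hp'
          have hpF := Finset.mem_filter.1 hp1
          have hpF' := Finset.mem_filter.1 hp1'
          refine Prod.ext (hpF.2.trans hpF'.2.symm) ?_
          funext t
          ext i
          have h2 := hz p hp1 t i
          have h3 := hz p' hp1' t i
          have h4 : z p t i = z p' t i := by rw [hpp]
          rw [h4] at h2
          linarith
      refine h1.trans (le_of_eq ?_)
      rw [Fintype.card_piFinset, hN]
      refine Finset.prod_congr rfl (fun t _ => ?_)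
      exact (Set.ncard_eq_toFinset_card _ (hpf t)).symm
  calc (F.card : ℝ) ≤ ((N * D.card : ℕ) : ℝ) := by exact_mod_cast hcount
    _ = D.card * N := by push_cast; ring
    _ ≤ _ := mul_le_mul_of_nonneg_left hNr (Nat.cast_nonneg _)

end

end Pool.Agent.H98.Hil
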