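import Pool.Agent.H98.Hil.Lifts
import Pool.Graph.R_seed8.Y806.DF.D

/-!
# The coset progression of a lattice of lifts
-/

set_option autoImplicit false

namespace Pool.Agent.H98.Hil

open Finset Pool.Agent.Y806.DF
open scoped Pointwise

section
variable {Γ J : Type*} [AddCommGroup Γ] [Fintype J] {m : J → ℕ}

/-- **The convex coset progression.** -/
theorem structure_thm {γ : (t : J) → Fin (m t) → AddChar Γ ℂ} (Λ : AddSubgroup (Γ × VV m))
    (hfg : Λ.FG) (hG : Λ ≤ GG γ) (D : Finset Γ) {R a : J → ℝ} (hR0 : ∀ t, 0 ≤ R t)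
    (ha0 : ∀ t, 0 < a t) (ha1 : ∀ t, a t ≤ 1 / 3) (haR : ∀ t, (4 * R t) ^ 2 ≤ a t * m t)
    (hD : ∀ p ∈ Λ, (∀ t, ‖p.2 t‖ ≤ 2 * R t) → p.1 ∈ D) :
    ∃ (d : ℕ) (X : Finset (Fin d → ℤ)) (ψ : (Fin d → ℤ) →+ Γ) (H : AddSubgroup Γ),
      X.Nonempty ∧ Finite H ∧ hull X ⊆ X ∧
      ((X + X).card : ℝ) * Nat.card H ≤
        D.card * Real.exp (∑ t, m t * (a t * (Real.log (1 / a t) + 3))) ∧
      ∀ p ∈ Λ, (∀ t, ‖p.2 t‖ ≤ R t) → ∃ c ∈ X, ∃ h ∈ H, p.1 = ψ c + h := by
  classical
  -- the projection and its basis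
  set L : AddSubgroup (VV m) := Λ.map (AddMonoidHom.snd Γ (VV m)) with hL
  have hLfg : L.FG := by
    obtain ⟨S, hS⟩ := hfg
    refine ⟨S.image (AddMonoidHom.snd Γ (VV m)), ?_⟩
    rw [hL, ← hS, AddMonoidHom.map_closure, Finset.coe_image]
  have hfin : Module.Finite ℤ L := by
    rw [Module.Finite.iff_addGroup_fg]
    exact (AddGroup.fg_iff_addSubgroup_fg L).2 hLfg
  have htf : IsAddTorsionFree (VV m) := .of_isTorsionFree ℝ (VV m)
  have hfree : Module.Free ℤ L := inferInstance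
  set d := Module.finrank ℤ L with hd
  let bas : Module.Basis (Fin d) ℤ L := Module.finBasis ℤ L
  have hpre : ∀ j : Fin d, ∃ p ∈ Λ, p.2 = (bas j : VV m) := by
    intro j
    obtain ⟨p, hp, hp2⟩ := AddSubgroup.mem_map.1 (bas j).2
    exact ⟨p, hp, hp2⟩
  choose q hqΛ hq2 using hpre
  let Ψ : (Fin d → ℤ) →+ Γ × VV m :=
    { toFun := fun c => ∑ j, c j • q j
      map_zero' := by simp
      map_add' := by
        intro c c'
        rw [← Finset.sum_add_distrib]
        refine Finset.sum_congr rfl (fun j _ => ?_)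
        rw [Pi.add_apply, add_smul] }
  have hΨΛ : ∀ c, Ψ c ∈ Λ := by
    intro c
    show ∑ j, c j • q j ∈ Λ
    exact AddSubgroup.sum_mem _ (fun j _ => AddSubgroup.zsmul_mem _ (hqΛ j) _)
  have hΨ2 : ∀ c, (Ψ c).2 = ∑ j, c j • (bas j : VV m) := by
    intro c
    show (∑ j, c j • q j).2 = _
    rw [Prod.snd_sum]
    refine Finset.sum_congr rfl (fun j _ => ?_)
    rw [Prod.smul_snd, hq2]
  have hΨL : ∀ c, (Ψ c).2 = ((bas.equivFun.symm c : L) : VV m) := by
    intro c
    rw [hΨ2, Module.Basis.equivFun_symm_apply, AddSubmonoidClass.coe_finsetSum]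
    rfl
  have hinj : ∀ c c', (Ψ c).2 = (Ψ c').2 → c = c' := by
    intro c c' h
    rw [hΨL, hΨL] at h
    exact bas.equivFun.symm.injective (Subtype.ext h)
  have hsurj : ∀ p ∈ Λ, ∃ c, (Ψ c).2 = p.2 := by
    intro p hp
    have h1 : p.2 ∈ L := AddSubgroup.mem_map.2 ⟨p, hp, rfl⟩
    refine ⟨bas.equivFun ⟨p.2, h1⟩, ?_⟩
    rw [hΨL, LinearEquiv.symm_apply_apply]
  -- the finite sets
  let P : Set (Γ × VV m) := {p | p ∈ Λ ∧ ∀ t, ‖p.2 t‖ ≤ 2 * R t}
  have hP : P.Finite ∧ (P.ncard : ℝ) ≤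
      D.card * Real.exp (∑ t, m t * (a t * (Real.log (1 / a t) + 3))) := by
    refine fin_of_bound (fun F hF => ?_)
    refine lift_count (γ := γ) D (r := fun t => 2 * R t) ha0 ha1 ?_ F ?_
    · intro t
      have : 2 * (2 * R t) = 4 * R t := by ring
      rw [this]
      exact haR t
    · intro p hp
      have h1 := hF (Finset.mem_coe.2 hp)
      exact ⟨hG h1.1, hD p h1.1 h1.2, h1.2⟩
  set H : AddSubgroup Γ := Λ.comap (AddMonoidHom.inl Γ (VV m)) with hH
  have hHmem : ∀ x, x ∈ H ↔ (x, (0 : VV m)) ∈ Λ := fun x => Iff.rfl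
  have hHD : (H : Set Γ) ⊆ D := by
    intro x hx
    refine hD (x, 0) hx (fun t => ?_)
    show ‖(0 : EuclideanSpace ℝ (Fin (m t)))‖ ≤ _
    rw [norm_zero]
    have := hR0 t
    positivity
  have hHfin : Finite H := (Finset.finite_toSet D).subset hHD
  let W : ℝ → Set (Fin d → ℤ) := fun r => {c | ∀ t, ‖(Ψ c).2 t‖ ≤ r * R t}
  have hWfin : (W 2).Finite := by
    refine Set.Finite.of_finite_image (f := Ψ) (hP.1.subset ?_) ?_
    · rintro _ ⟨c, hc, rfl⟩
      exact ⟨hΨΛ c, hc⟩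
    · intro c _ c' _ h
      exact hinj c c' (by rw [h])
  have hW12 : W 1 ⊆ W 2 := by
    intro c hc t
    have h1 := hc t
    have h2 := hR0 t
    linarith
  have hW1 : (W 1).Finite := hWfin.subset hW12
  set X := hW1.toFinset with hX
  have hXmem : ∀ c, c ∈ X ↔ ∀ t, ‖(Ψ c).2 t‖ ≤ R t := by
    intro c
    rw [hX, Set.Finite.mem_toFinset]
    show (∀ t, ‖(Ψ c).2 t‖ ≤ 1 * R t) ↔ _
    simp only [one_mul]
  refine ⟨d, X, (AddMonoidHom.fst Γ (VV m)).comp Ψ, H, ?_, hHfin, ?_, ?_, ?_⟩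
  · refine ⟨0, (hXmem 0).2 (fun t => ?_)⟩
    rw [map_zero]
    show ‖(0 : EuclideanSpace ℝ (Fin (m t)))‖ ≤ _
    rw [norm_zero]
    exact hR0 t
  · -- convexity
    let eR : (Fin d → ℝ) →ₗ[ℝ] VV m :=
      { toFun := fun w => ∑ j, w j • (bas j : VV m)
        map_add' := by
          intro w w'
          rw [← Finset.sum_add_distrib]
          refine Finset.sum_congr rfl (fun j _ => ?_)
          rw [Pi.add_apply, add_smul]
        map_smul' := by
          intro r w
          rw [RingHom.id_apply, Finset.smul_sum]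
          refine Finset.sum_congr rfl (fun j _ => ?_)
          rw [Pi.smul_apply, smul_eq_mul, mul_smul] }
    have heR : ∀ c, eR (re c) = (Ψ c).2 := by
      intro c
      rw [hΨ2]
      show ∑ j, (c j : ℝ) • (bas j : VV m) = _
      refine Finset.sum_congr rfl (fun j _ => ?_)
      exact Int.cast_smul_eq_zsmul ℝ _ _
    have hconv : Convex ℝ {w : Fin d → ℝ | ∀ t, ‖eR w t‖ ≤ R t} := by
      intro w hw w' hw' α β hα hβ hαβ t
      have h1 : eR (α • w + β • w') t = α • eR w t + β • eR w' t := by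
        rw [map_add, map_smul, map_smul]
        rfl
      rw [h1]
      refine (norm_add_le _ _).trans ?_
      rw [norm_smul, norm_smul, Real.norm_of_nonneg hα, Real.norm_of_nonneg hβ]
      have h2 := mul_le_mul_of_nonneg_left (hw t) hα
      have h3 := mul_le_mul_of_nonneg_left (hw' t) hβ
      calc α * ‖eR w t‖ + β * ‖eR w' t‖ ≤ α * R t + β * R t := add_le_add h2 h3
        _ = (α + β) * R t := by ring
        _ = R t := by rw [hαβ, one_mul]
    intro v hv
    rw [Finset.mem_coe, hXmem]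
    have h1 : re v ∈ {w : Fin d → ℝ | ∀ t, ‖eR w t‖ ≤ R t} := by
      refine convexHull_min ?_ hconv hv
      rintro _ ⟨c, hc, rfl⟩ t
      rw [heR]
      exact (hXmem c).1 (Finset.mem_coe.1 hc) t
    intro t
    have h2 := h1 t
    rw [heR] at h2
    exact h2
  · -- counting
    refine le_trans ?_ hP.2
    have hHft : Fintype H := Fintype.ofFinite H
    have h1 : ((X + X) ×ˢ (Finset.univ : Finset H)).card ≤ hP.1.toFinset.card := by
      refine Finset.card_le_card_of_injOn (fun s => Ψ s.1 + ((s.2 : Γ), (0 : VV m))) ?_ ?_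
      · rintro ⟨c, h⟩ hs
        have hs' := Finset.mem_product.1 (Finset.mem_coe.1 hs)
        obtain ⟨c1, hc1, c2, hc2, hc⟩ := Finset.mem_add.1 hs'.1
        rw [Finset.mem_coe, Set.Finite.mem_toFinset]
        refine ⟨Λ.add_mem (hΨΛ c) ((hHmem _).1 h.2), fun t => ?_⟩
        show ‖((Ψ c).2 + 0) t‖ ≤ 2 * R t
        rw [add_zero]
        have hc' : c = c1 + c2 := hc.symm
        rw [hc', map_add]
        show ‖(Ψ c1).2 t + (Ψ c2).2 t‖ ≤ 2 * R t
        refine (norm_add_le _ _).trans ?_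
        have h2 := (hXmem c1).1 hc1 t
        have h3 := (hXmem c2).1 hc2 t
        linarith
      · rintro ⟨c, h⟩ _ ⟨c', h'⟩ _ he
        have h1 := congrArg Prod.snd he
        have h2 : (Ψ c).2 + 0 = (Ψ c').2 + 0 := h1
        rw [add_zero, add_zero] at h2
        have h3 := hinj c c' h2
        subst h3
        have h4 : Ψ c + ((h : Γ), (0 : VV m)) = Ψ c + ((h' : Γ), (0 : VV m)) := he
        have h5 := congrArg Prod.fst (add_left_cancel h4)
        have h6 : h = h' := Subtype.ext h5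
        rw [h6]
    rw [Finset.card_product, Finset.card_univ, ← Nat.card_eq_fintype_card] at h1
    rw [Set.ncard_eq_toFinset_card _ hP.1]
    exact_mod_cast h1
  · intro p hp hpR
    obtain ⟨c, hc⟩ := hsurj p hp
    refine ⟨c, (hXmem c).2 (fun t => by rw [hc]; exact hpR t), p.1 - (Ψ c).1, ?_, ?_⟩
    · rw [hHmem]
      have h1 := Λ.sub_mem hp (hΨΛ c)
      have h2 : p - Ψ c = (p.1 - (Ψ c).1, (0 : VV m)) := by
        refine Prod.ext rfl ?_
        show p.2 - (Ψ c).2 = 0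
        rw [hc, sub_self]
      rw [h2] at h1
      exact h1
    · show p.1 = (Ψ c).1 + (p.1 - (Ψ c).1)
      abel

end

end Pool.Agent.H98.Hil
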